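import Pool.Agent.H84.FL.Eval

/-!
MP_fd220b_nt, flat ternary inclusion-exclusion polynomials with `r ≡ ± 1 (mod q)`: the coefficients of the
inclusion-exclusion polynomial in terms of `CC`.
-/

set_option autoImplicit false

namespace Pool.Agent.H84.FL

open Finset

/-- the coefficients of `H / (1 - X ^ a)` -/
def geo (a : ℕ) (H : ℕ → ℤ) (n : ℕ) : ℤ := ∑ i ∈ range (n / a + 1), H (n - a * i)

theorem geo_rec {a : ℕ} (ha : 0 < a) (H : ℕ → ℤ) (n : ℕ) :
    geo a H n = H n + if a ≤ n then geo a H (n - a) else 0 := by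
  unfold geo
  by_cases h : a ≤ n
  · rw [if_pos h]
    have h1 : n / a = (n - a) / a + 1 := by
      rw [Nat.div_eq_sub_div ha h]
    rw [h1, Finset.sum_range_succ' (fun i => H (n - a * i))]
    rw [Nat.mul_zero, Nat.sub_zero, add_comm]
    congr 1
    refine Finset.sum_congr rfl fun i _ => ?_
    congr 1
    rw [Nat.mul_add, Nat.mul_one, Nat.add_comm, Nat.sub_sub]
  · rw [if_neg h]
    have h1 : n / a = 0 := Nat.div_eq_of_lt (by omega)
    rw [h1]
    simp

theorem geo_eq {a : ℕ} (ha : 0 < a) (H : ℕ → ℤ) {n K : ℕ} (hn : n < a * K) :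
    geo a H n = ∑ i ∈ range K, if a * i ≤ n then H (n - a * i) else 0 := by
  unfold geo
  rw [← Finset.sum_filter]
  refine Finset.sum_congr ?_ fun _ _ => rfl
  ext i
  rw [mem_range, mem_filter, mem_range, Nat.lt_succ_iff, Nat.le_div_iff_mul_le ha, Nat.mul_comm i a]
  constructor
  · intro h
    refine ⟨?_, h⟩
    exact lt_of_mul_lt_mul_left (lt_of_le_of_lt h hn) (Nat.zero_le a)
  · intro h
    exact h.2

open PowerSeries in
theorem coeff_one_sub (a : ℕ) (H : PowerSeries ℤ) (n : ℕ) :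
    coeff n ((1 - X ^ a) * H) = coeff n H - if a ≤ n then coeff (n - a) H else 0 := by
  rw [sub_mul, one_mul, map_sub, coeff_X_pow_mul']

open PowerSeries in
theorem mk_geo {a : ℕ} (ha : 0 < a) (H : ℕ → ℤ) : (1 - X ^ a) * PowerSeries.mk (geo a H) = PowerSeries.mk H := by
  ext n
  rw [coeff_one_sub, coeff_mk, geo_rec ha H n]
  by_cases h : a ≤ n
  · rw [if_pos h, if_pos h, coeff_mk, coeff_mk]
    ring
  · rw [if_neg h, if_neg h, coeff_mk]
    ring

/-- the coefficients of `(1 + ... + X ^ (p - 1)) / (1 - X ^ (p q))` -/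
def d0 (p q n : ℕ) : ℤ := if n % (p * q) < p then 1 else 0

open PowerSeries in
theorem mk_d0 {p q : ℕ} (hp : 0 < p) (hq : 1 < q) :
    (1 - X ^ (p * q)) * PowerSeries.mk (d0 p q) = ∑ i ∈ range p, (X : PowerSeries ℤ) ^ i := by
  ext n
  have hpq : p < p * q := by nlinarith
  rw [coeff_one_sub, coeff_mk, map_sum]
  have h1 : ∑ i ∈ range p, coeff n ((X : PowerSeries ℤ) ^ i) = if n < p then 1 else 0 := by
    simp only [coeff_X_pow]
    rw [Finset.sum_ite_eq]
    simp
  rw [h1]
  unfold d0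
  by_cases h : p * q ≤ n
  · rw [if_pos h, coeff_mk]
    have h2 : n % (p * q) = (n - p * q) % (p * q) := by
      rw [← Nat.mod_eq_sub_mod h]
    rw [← h2, if_neg (by omega : ¬ n < p)]
    ring
  · rw [if_neg h, Nat.mod_eq_of_lt (by omega)]
    ring

/-- `C (m)` for an integer `m` -/
noncomputable def Cz (p q r : ℕ) (m : ℤ) : ℤ :=
  if 0 ≤ m then geo (q * r) (geo (p * r) (d0 p q)) m.toNat else 0

open PowerSeries in
theorem coeff_F {p q r : ℕ} (hp : 0 < p) (hq : 1 < q) (hr : 0 < r) {F : Polynomial ℤ}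
    (hF : F * ((Polynomial.X ^ (p * q) - 1) * (Polynomial.X ^ (p * r) - 1) *
      (Polynomial.X ^ (q * r) - 1) * (Polynomial.X - 1)) =
      (Polynomial.X ^ (p * q * r) - 1) * (Polynomial.X ^ p - 1) * (Polynomial.X ^ q - 1) *
        (Polynomial.X ^ r - 1)) {n : ℕ} (hn : n < p * q * r) :
    F.coeff n = Cz p q r n - Cz p q r ((n : ℤ) - q) - Cz p q r ((n : ℤ) - r) +
      Cz p q r ((n : ℤ) - q - r) := by
  set C : PowerSeries ℤ := PowerSeries.mk (geo (q * r) (geo (p * r) (d0 p q))) with hC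
  set f : PowerSeries ℤ := (F : PowerSeries ℤ) with hf
  set g : PowerSeries ℤ := ∑ i ∈ range p, (X : PowerSeries ℤ) ^ i with hg
  have hpq : 0 < p * q := by positivity
  have hpr : 0 < p * r := by positivity
  have hqr : 0 < q * r := by positivity
  have h1 : f * ((X ^ (p * q) - 1) * (X ^ (p * r) - 1) * (X ^ (q * r) - 1) * (X - 1)) =
      (X ^ (p * q * r) - 1) * (X ^ p - 1) * (X ^ q - 1) * (X ^ r - 1) := by
    have := congrArg (fun P : Polynomial ℤ => (P : PowerSeries ℤ)) hF
    simpa using this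
  have h2 : g * (X - 1) = X ^ p - 1 := geom_sum_mul X p
  have h3 : (1 - X ^ (p * q)) * ((1 - X ^ (p * r)) * ((1 - X ^ (q * r)) * C)) = g := by
    rw [hC, mk_geo hqr, mk_geo hpr, mk_d0 hp hq]
  have nz : ∀ a : ℕ, 0 < a → (1 - X ^ a : PowerSeries ℤ) ≠ 0 := by
    intro a ha h
    have := congrArg (fun P : PowerSeries ℤ => coeff 0 P) h
    simp [ha.ne'] at this
  have nz1 : (X - 1 : PowerSeries ℤ) ≠ 0 := by
    intro h
    apply nz 1 Nat.one_pos
    rw [pow_one]
    have : (1 - X : PowerSeries ℤ) = -(X - 1) := by ring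
    rw [this, h, neg_zero]
  have h4 : f = (1 - X ^ (p * q * r)) * ((1 - X ^ q) * ((1 - X ^ r) * C)) := by
    have h5 : f * ((1 - X ^ (p * q)) * (1 - X ^ (p * r)) * (1 - X ^ (q * r)) * (X - 1)) =
        (1 - X ^ (p * q * r)) * ((1 - X ^ q) * ((1 - X ^ r) * C)) *
          ((1 - X ^ (p * q)) * (1 - X ^ (p * r)) * (1 - X ^ (q * r)) * (X - 1)) := by
      have e1 : f * ((1 - X ^ (p * q)) * (1 - X ^ (p * r)) * (1 - X ^ (q * r)) * (X - 1)) =
          -(f * ((X ^ (p * q) - 1) * (X ^ (p * r) - 1) * (X ^ (q * r) - 1) * (X - 1))) := by ring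
      rw [e1, h1, ← h2, ← h3]
      ring
    refine mul_right_cancel₀ ?_ h5
    exact mul_ne_zero (mul_ne_zero (mul_ne_zero (nz _ hpq) (nz _ hpr)) (nz _ hqr)) nz1
  have h5 : F.coeff n = coeff n f := by rw [hf, Polynomial.coeff_coe]
  rw [h5, h4, coeff_one_sub, if_neg (by omega : ¬ p * q * r ≤ n), coeff_one_sub, coeff_one_sub]
  have hCz : ∀ j : ℕ, Cz p q r (j : ℤ) = coeff j C := by
    intro j
    rw [Cz, if_pos (by positivity), Int.toNat_natCast, hC, coeff_mk]
  have hneg : ∀ m : ℤ, m < 0 → Cz p q r m = 0 := by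
    intro m hm
    rw [Cz, if_neg (by omega)]
  have t1 : (if r ≤ n then coeff (n - r) C else 0) = Cz p q r ((n : ℤ) - r) := by
    by_cases h : r ≤ n
    · rw [if_pos h, ← hCz, Nat.cast_sub h]
    · rw [if_neg h, hneg _ (by omega)]
  rw [t1, ← hCz n]
  by_cases hqn : q ≤ n
  · rw [if_pos hqn, coeff_one_sub, ← hCz (n - q), Nat.cast_sub hqn]
    have t2 : (if r ≤ n - q then coeff (n - q - r) C else 0) = Cz p q r ((n : ℤ) - q - r) := by
      by_cases h : r ≤ n - q
      · rw [if_pos h, ← hCz, Nat.cast_sub h, Nat.cast_sub hqn]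
      · rw [if_neg h, hneg _ (by omega)]
    rw [t2]
    ring
  · rw [if_neg hqn, hneg ((n : ℤ) - q) (by omega), hneg ((n : ℤ) - q - r) (by omega)]
    ring

theorem Cz_eq {p q r k : ℕ} (hp : 0 < p) (hq : 0 < q) (hr : 0 < r) (hk : k ≤ p) {m : ℤ}
    (hm : m < (r : ℤ) * q * k) : Cz p q r m = CC p q r k m := by
  unfold Cz CC
  by_cases h0 : 0 ≤ m
  · rw [if_pos h0]
    obtain ⟨n, rfl⟩ := Int.eq_ofNat_of_zero_le h0
    rw [Int.toNat_natCast]
    have hn : n < q * r * k := by
      have : (n : ℤ) < ((q * r * k : ℕ) : ℤ) := by push_cast; linarith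
      exact_mod_cast this
    have hn2 : n < p * r * q := by
      calc n < q * r * k := hn
        _ ≤ q * r * p := Nat.mul_le_mul_left _ hk
        _ = p * r * q := by ring
    rw [geo_eq (by positivity) _ hn]
    refine Finset.sum_congr rfl fun y _ => ?_
    by_cases h1 : q * r * y ≤ n
    · rw [if_pos h1, geo_eq (a := p * r) (by positivity) (d0 p q) (n := n - q * r * y) (K := q)
        (by omega)]
      refine Finset.sum_congr rfl fun x _ => ?_
      have e : (r : ℤ) * (p * x + q * y) = ((p * r * x + q * r * y : ℕ) : ℤ) := by push_cast; ring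
      by_cases h2 : p * r * x ≤ n - q * r * y
      · rw [if_pos h2]
        unfold d0
        have h3 : p * r * x + q * r * y ≤ n := by omega
        have h4 : (n : ℤ) - r * (p * x + q * y) = ((n - q * r * y - p * r * x : ℕ) : ℤ) := by
          rw [e, Nat.sub_sub, Nat.add_comm (q * r * y), Nat.cast_sub h3]
        have h5 : ((n : ℤ) - r * (p * x + q * y)) % ((p : ℤ) * q) =
            (((n - q * r * y - p * r * x) % (p * q) : ℕ) : ℤ) := by
          rw [h4]
          push_cast
          rfl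
        have h6 : (r : ℤ) * (p * x + q * y) ≤ (n : ℤ) := by rw [e]; exact_mod_cast h3
        rw [h5]
        by_cases h7 : (n - q * r * y - p * r * x) % (p * q) < p
        · rw [if_pos h7, if_pos ⟨h6, by exact_mod_cast h7⟩]
        · rw [if_neg h7, if_neg]
          intro h8
          exact h7 (by exact_mod_cast h8.2)
      · rw [if_neg h2, if_neg]
        intro h3
        have h4 := h3.1
        rw [e] at h4
        have h5 : p * r * x + q * r * y ≤ n := by exact_mod_cast h4
        omega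
    · rw [if_neg h1]
      symm
      refine Finset.sum_eq_zero fun x _ => ?_
      rw [if_neg]
      intro h3
      have e : (r : ℤ) * (p * x + q * y) = ((p * r * x + q * r * y : ℕ) : ℤ) := by push_cast; ring
      have h4 := h3.1
      rw [e] at h4
      have h5 : p * r * x + q * r * y ≤ n := by exact_mod_cast h4
      omega
  · rw [if_neg h0]
    symm
    refine Finset.sum_eq_zero fun y _ => Finset.sum_eq_zero fun x _ => ?_
    rw [if_neg]
    intro h
    have h1 : (0 : ℤ) ≤ (r : ℤ) * (p * x + q * y) := by positivity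
    linarith [h.1]

end Pool.Agent.H84.FL
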