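import Mathlib

/-!
MP_fd220b_nt, flat ternary inclusion-exclusion polynomials with `r ≡ ± 1 (mod q)`: the combinatorial core.
`NN p R k b` is the number of lattice points `(x, y)`, `x, y ≥ 0`, `x + y < k`, with `x + R y ≡ b (mod p)`.
For `R = 1 + c q` the second difference of `NN` in the directions `1` and `c` takes the value `2` or `-2`
(discrete intermediate value argument).
-/

set_option autoImplicit false

namespace Pool.Agent.H84.FL

open Finset

/-- the number of `y < k` with `(b - R y) mod p < k - y` -/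
def NN (p : ℕ) (R : ℤ) (k : ℕ) (b : ℤ) : ℤ :=
  ∑ y ∈ range k, if (b - R * (y : ℤ)) % (p : ℤ) < (k : ℤ) - y then 1 else 0

theorem point {p a s : ℤ} (h1 : 1 ≤ s) (h2 : s ≤ p - 1) :
    ((if a % p < s then 1 else 0 : ℤ) - (if (a - 1) % p < s then 1 else 0)) =
      (if a % p = 0 then 1 else 0) - (if a % p = s then 1 else 0) := by
  have hp : 0 < p := by omega
  have h0 : 0 ≤ a % p := Int.emod_nonneg _ hp.ne'
  have h3 : a % p < p := Int.emod_lt_of_pos _ hp
  have h4 : (a - 1) % p = (a % p - 1) % p := by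
    rw [Int.sub_emod, Int.sub_emod (a % p) 1, Int.emod_emod_of_dvd _ (dvd_refl p)]
  rw [h4]
  by_cases h5 : a % p = 0
  · have h6 : (a % p - 1) % p = p - 1 := by
      have : (a % p - 1) % p = (p - 1) % p := by
        rw [h5, show (p - 1 : ℤ) = (0 - 1) + p by ring]
        simp
      rw [this]
      exact Int.emod_eq_of_lt (by omega) (by omega)
    rw [h6, h5]
    have h7 : ¬ (p - 1 < s) := by omega
    have h8 : (0 : ℤ) < s := by omega
    have h9 : ¬ ((0 : ℤ) = s) := by omega
    simp [h7, h8, h9]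
  · have h6 : (a % p - 1) % p = a % p - 1 := Int.emod_eq_of_lt (by omega) (by omega)
    rw [h6]
    by_cases h7 : a % p < s
    · have h8 : a % p - 1 < s := by omega
      have h9 : ¬ a % p = s := by omega
      simp [h5, h7, h8, h9]
    · by_cases h8 : a % p = s
      · have h9 : a % p - 1 < s := by omega
        simp [h8]
        omega
      · have h9 : ¬ a % p - 1 < s := by omega
        simp [h5, h7, h8, h9]

/-- the number of `y < k` with `u y ≡ t` for a unit `u` with inverse `u'` -/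
theorem count1 {p : ℕ} (hp : 0 < p) {k : ℕ} (hk : k ≤ p) {u u' t : ℤ}
    (hu : u * u' ≡ 1 [ZMOD p]) {P : ℕ → Prop} [DecidablePred P]
    (hP : ∀ y : ℕ, y < k → (P y ↔ u * y ≡ t [ZMOD p])) :
    (∑ y ∈ range k, if P y then 1 else 0 : ℤ) = if (u' * t) % (p : ℤ) < k then 1 else 0 := by
  have hp' : (0 : ℤ) < p := by exact_mod_cast hp
  have h0 : 0 ≤ (u' * t) % (p : ℤ) := Int.emod_nonneg _ hp'.ne'
  have h1 : (u' * t) % (p : ℤ) < p := Int.emod_lt_of_pos _ hp'
  obtain ⟨z, hz⟩ := Int.eq_ofNat_of_zero_le h0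
  have key : ∀ y : ℕ, y < k → (P y ↔ y = z) := by
    intro y hy
    rw [hP y hy]
    constructor
    · intro h
      have h2 : (y : ℤ) ≡ u' * t [ZMOD p] := by
        have h3 : u' * (u * y) ≡ u' * t [ZMOD p] := h.mul_left u'
        have h4 : u' * (u * y) ≡ 1 * y [ZMOD p] := by
          have : u' * (u * y) = (u * u') * y := by ring
          rw [this]
          exact hu.mul_right _
        have := h4.symm.trans h3
        rwa [one_mul] at this
      have h5 : (y : ℤ) % p = (u' * t) % p := h2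
      rw [Int.emod_eq_of_lt (by positivity) (by exact_mod_cast lt_of_lt_of_le hy hk), hz] at h5
      exact_mod_cast h5
    · intro h
      subst h
      have h2 : (y : ℤ) ≡ u' * t [ZMOD p] := by
        have : (y : ℤ) = (u' * t) % p := hz.symm
        rw [this]
        exact Int.mod_modEq _ _
      have h3 : u * y ≡ u * (u' * t) [ZMOD p] := h2.mul_left u
      have h4 : u * (u' * t) ≡ 1 * t [ZMOD p] := by
        have : u * (u' * t) = (u * u') * t := by ring
        rw [this]
        exact hu.mul_right _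
      rw [one_mul] at h4
      exact h3.trans h4
  rw [hz]
  by_cases hzk : z < k
  · have h6 : ((z : ℤ) < k) := by exact_mod_cast hzk
    rw [if_pos h6]
    rw [Finset.sum_eq_single_of_mem z (mem_range.2 hzk)]
    · rw [if_pos ((key z hzk).2 rfl)]
    · intro y hy hne
      rw [if_neg]
      intro h
      exact hne ((key y (mem_range.1 hy)).1 h)
  · have h6 : ¬ ((z : ℤ) < k) := by exact_mod_cast hzk
    rw [if_neg h6]
    refine Finset.sum_eq_zero fun y hy => ?_
    rw [if_neg]
    intro h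
    have := (key y (mem_range.1 hy)).1 h
    rw [this] at hy
    exact hzk (mem_range.1 hy)

/-- first difference -/
theorem diff {p : ℕ} {k : ℕ} (h1 : 1 ≤ k) (h2 : k < p) {R R' S' : ℤ} (b : ℤ)
    (hR : R * R' ≡ 1 [ZMOD p]) (hS : (R - 1) * S' ≡ 1 [ZMOD p]) :
    NN p R k b - NN p R k (b - 1) =
      (if (R' * b) % (p : ℤ) < k then 1 else 0) - (if (S' * (b - k)) % (p : ℤ) < k then 1 else 0) := by
  have hp : 0 < p := by omega
  unfold NN
  rw [← Finset.sum_sub_distrib]
  have e1 : ∀ y ∈ range k,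
      ((if (b - R * (y : ℤ)) % (p : ℤ) < (k : ℤ) - y then 1 else 0 : ℤ) -
        (if (b - 1 - R * (y : ℤ)) % (p : ℤ) < (k : ℤ) - y then 1 else 0)) =
      (if (b - R * (y : ℤ)) % (p : ℤ) = 0 then 1 else 0) -
        (if (b - R * (y : ℤ)) % (p : ℤ) = (k : ℤ) - y then 1 else 0) := by
    intro y hy
    have hy' := mem_range.1 hy
    have := point (p := (p : ℤ)) (a := b - R * (y : ℤ)) (s := (k : ℤ) - y) (by omega) (by omega)
    rw [← this]
    congr 3
    ring_nf
  rw [Finset.sum_congr rfl e1, Finset.sum_sub_distrib]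
  rw [count1 hp h2.le (u := R) (u' := R') (t := b) hR, count1 hp h2.le (u := R - 1) (u' := S')
    (t := b - k) hS]
  · intro y hy
    have h3 : (0 : ℤ) ≤ (k : ℤ) - y := by omega
    have h4 : ((k : ℤ) - y) % p = (k : ℤ) - y := Int.emod_eq_of_lt h3 (by omega)
    constructor
    · intro h
      have h5 : b - R * y ≡ k - y [ZMOD p] := by
        unfold Int.ModEq
        rw [h, h4]
      have h6 : (R - 1) * y - (b - k) = -((b - R * y) - (k - y)) := by ring
      rw [Int.modEq_iff_dvd] at h5 ⊢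
      have : b - ↑k - (R - 1) * ↑y = -((k - y) - (b - R * y)) := by ring
      rw [this]
      exact (dvd_neg).2 h5
    · intro h
      have h5 : b - R * y ≡ k - y [ZMOD p] := by
        rw [Int.modEq_iff_dvd] at h ⊢
        have : (k : ℤ) - y - (b - R * y) = -(b - ↑k - (R - 1) * ↑y) := by ring
        rw [this]
        exact (dvd_neg).2 h
      unfold Int.ModEq at h5
      rw [h5, h4]
  · intro y hy
    constructor
    · intro h
      have h5 := Int.dvd_of_emod_eq_zero h
      rw [Int.modEq_iff_dvd]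
      exact h5
    · intro h
      rw [Int.modEq_iff_dvd] at h
      exact Int.emod_eq_zero_of_dvd h

theorem lt_iff {p : ℕ} {k : ℕ} (h2 : k < p) {y t : ℤ} (ht0 : t % (p : ℤ) ≠ 0)
    (hy : y ≡ k - t [ZMOD p]) : y % (p : ℤ) < k ↔ t % (p : ℤ) ≤ k := by
  have hp' : (0 : ℤ) < p := by exact_mod_cast (by omega : 0 < p)
  have h0 : 0 ≤ t % (p : ℤ) := Int.emod_nonneg _ hp'.ne'
  have h1 : t % (p : ℤ) < p := Int.emod_lt_of_pos _ hp'
  have h3 : y % (p : ℤ) = ((k : ℤ) - t % p) % p := by
    have h4 : y ≡ k - t % p [ZMOD p] := by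
      refine hy.trans ?_
      exact Int.ModEq.sub_left _ (Int.mod_modEq t p).symm
    exact h4
  by_cases h5 : t % (p : ℤ) ≤ k
  · have h6 : ((k : ℤ) - t % p) % p = k - t % p := Int.emod_eq_of_lt (by omega) (by omega)
    rw [h3, h6]
    constructor
    · intro _; exact h5
    · intro _; omega
  · have h6 : ((k : ℤ) - t % p) % p = k - t % p + p := by
      have : ((k : ℤ) - t % p) % p = ((k : ℤ) - t % p + p) % p := by simp
      rw [this]
      exact Int.emod_eq_of_lt (by omega) (by omega)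
    rw [h3, h6]
    constructor
    · intro h; omega
    · intro h; omega

theorem emod_add_cases {p a b : ℤ} (hp : 0 < p) :
    (a + b) % p = a % p + b % p ∨ (a + b) % p = a % p + b % p - p := by
  have h1 : 0 ≤ a % p := Int.emod_nonneg _ hp.ne'
  have h2 : a % p < p := Int.emod_lt_of_pos _ hp
  have h3 : 0 ≤ b % p := Int.emod_nonneg _ hp.ne'
  have h4 : b % p < p := Int.emod_lt_of_pos _ hp
  rw [Int.add_emod]
  by_cases h : a % p + b % p < p
  · left
    exact Int.emod_eq_of_lt (by omega) h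
  · right
    have : (a % p + b % p) % p = (a % p + b % p - p) % p := by simp
    rw [this]
    exact Int.emod_eq_of_lt (by omega) (by omega)

/-- discrete intermediate value: a jump of the two multiples sequences -/
theorem jump {p : ℕ} (hp : 2 ≤ p) {g h : ℤ} (hg : IsCoprime g p) (hh : IsCoprime h p)
    (hgh : IsCoprime (h - g) p) :
    ∃ v : ℕ, 1 ≤ v ∧ v + 1 < p ∧ ∃ k : ℕ, 1 ≤ k ∧ k < p ∧
      (((g * v) % (p : ℤ) ≤ k ∧ k < (h * v) % (p : ℤ) ∧
        k < (g * (v + 1)) % (p : ℤ) ∧ (h * (v + 1)) % (p : ℤ) ≤ k) ∨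
       ((h * v) % (p : ℤ) ≤ k ∧ k < (g * v) % (p : ℤ) ∧
        k < (h * (v + 1)) % (p : ℤ) ∧ (g * (v + 1)) % (p : ℤ) ≤ k)) := by
  -- it is enough to treat `g % p < h % p`
  have main : ∀ g h : ℤ, IsCoprime g p → IsCoprime h p → IsCoprime (h - g) p →
      g % (p : ℤ) < h % (p : ℤ) →
      ∃ v : ℕ, 1 ≤ v ∧ v + 1 < p ∧ ∃ k : ℕ, 1 ≤ k ∧ k < p ∧
        ((g * v) % (p : ℤ) ≤ k ∧ k < (h * v) % (p : ℤ) ∧
          k < (g * (v + 1)) % (p : ℤ) ∧ (h * (v + 1)) % (p : ℤ) ≤ k) := by
    intro g h hg hh hgh hlt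
    have hp' : (0 : ℤ) < p := by exact_mod_cast (by omega : 0 < p)
    -- a unit times a nonzero residue is nonzero
    have nz : ∀ u : ℤ, IsCoprime u p → ∀ v : ℕ, 1 ≤ v → v < p → (u * v) % (p : ℤ) ≠ 0 := by
      intro u hu v h1 h2 h3
      have h4 : (p : ℤ) ∣ u * v := Int.dvd_of_emod_eq_zero h3
      have h5 : (p : ℤ) ∣ v := hu.symm.dvd_of_dvd_mul_left h4
      have h6 : p ∣ v := by exact_mod_cast h5
      have := Nat.le_of_dvd (by omega) h6
      omega
    have bd : ∀ u : ℤ, 0 ≤ u % (p : ℤ) ∧ u % (p : ℤ) < p := fun u =>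
      ⟨Int.emod_nonneg _ hp'.ne', Int.emod_lt_of_pos _ hp'⟩
    have neg : ∀ u : ℤ, IsCoprime u p → (u * ((p - 1 : ℕ) : ℤ)) % (p : ℤ) = p - u % p := by
      intro u hu
      have h1 : u * ((p - 1 : ℕ) : ℤ) = -u + p * u := by
        have : ((p - 1 : ℕ) : ℤ) = (p : ℤ) - 1 := by
          push_cast [Nat.cast_sub (by omega : 1 ≤ p)]
          ring
        rw [this]; ring
      rw [h1, Int.add_mul_emod_self_left]
      have h2 : u % (p : ℤ) ≠ 0 := by
        have := nz u hu 1 le_rfl (by omega)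
        simpa using this
      have h3 := bd u
      have h4 : (-u) % (p : ℤ) = (p - u % p) % p := by
        have : (-u) ≡ p - u % p [ZMOD p] := by
          rw [Int.modEq_iff_dvd]
          have h5 : (p : ℤ) - u % p - -u = p + (u - u % p) := by ring
          rw [h5]
          refine dvd_add (dvd_refl _) ?_
          exact Int.dvd_self_sub_emod
        exact this
      rw [h4]
      exact Int.emod_eq_of_lt (by omega) (by omega)
    -- D never vanishes
    have dn : ∀ v : ℕ, 1 ≤ v → v < p → (h * v) % (p : ℤ) ≠ (g * v) % (p : ℤ) := by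
      intro v h1 h2 h3
      apply nz (h - g) hgh v h1 h2
      have : (h * v : ℤ) ≡ g * v [ZMOD p] := h3
      rw [Int.modEq_iff_dvd] at this
      have h4 : (h - g) * v = -(g * v - h * v) := by ring
      rw [h4]
      exact Int.emod_eq_zero_of_dvd ((dvd_neg).2 this)
    -- the first sign change
    have ex : ∃ v : ℕ, 1 ≤ v ∧ v + 1 < p ∧ (g * v) % (p : ℤ) < (h * v) % (p : ℤ) ∧
        (h * ((v + 1 : ℕ) : ℤ)) % (p : ℤ) < (g * ((v + 1 : ℕ) : ℤ)) % (p : ℤ) := by
      by_contra hcon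
      push Not at hcon
      have all : ∀ v : ℕ, 1 ≤ v → v < p → (g * v) % (p : ℤ) < (h * v) % (p : ℤ) := by
        intro v hv
        induction v, hv using Nat.le_induction with
        | base => intro _; simpa using hlt
        | succ v hv ih =>
          intro h2
          have h3 := hcon v hv h2 (ih (by omega))
          have h4 := dn (v + 1) (by omega) h2
          exact lt_of_le_of_ne h3 h4.symm
      have h5 := all (p - 1) (by omega) (by omega)
      rw [neg g hg, neg h hh] at h5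
      omega
    obtain ⟨v, hv1, hv2, hv3, hv4⟩ := ex
    refine ⟨v, hv1, hv2, ?_⟩
    have e1 : g * ((v + 1 : ℕ) : ℤ) = g * v + g := by push_cast; ring
    have e2 : h * ((v + 1 : ℕ) : ℤ) = h * v + h := by push_cast; ring
    have e1' : g * ((v : ℤ) + 1) = g * v + g := by ring
    have e2' : h * ((v : ℤ) + 1) = h * v + h := by ring
    have z1 := nz g hg (v + 1) (by omega) hv2
    have z2 := nz h hh (v + 1) (by omega) hv2
    rw [e1] at hv4 z1
    rw [e2] at hv4 z2
    rw [e1', e2']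
    have c1 := emod_add_cases (a := g * v) (b := g) hp'
    have c2 := emod_add_cases (a := h * v) (b := h) hp'
    have b1 := bd (g * v)
    have b2 := bd (h * v)
    have b3 := bd g
    have b4 := bd h
    have b5 := bd (g * v + g)
    have b6 := bd (h * v + h)
    have z3 := nz g hg v hv1 (by omega)
    have z5 : g % (p : ℤ) ≠ 0 := by
      have := nz g hg 1 le_rfl (by omega)
      simpa using this
    have hk : ∃ k : ℤ, 1 ≤ k ∧ k < p ∧ (g * v) % (p : ℤ) ≤ k ∧ k < (h * v) % (p : ℤ) ∧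
        k < (g * v + g) % (p : ℤ) ∧ (h * v + h) % (p : ℤ) ≤ k := by
      refine ⟨max ((g * v) % (p : ℤ)) ((h * v + h) % (p : ℤ)), ?_, ?_, le_max_left _ _, ?_, ?_,
        le_max_right _ _⟩
      · have : 1 ≤ (g * v) % (p : ℤ) := by omega
        exact le_trans this (le_max_left _ _)
      · exact max_lt b1.2 b6.2
      · refine max_lt hv3 ?_
        omega
      · refine max_lt ?_ hv4
        omega
    obtain ⟨k, k1, k2, k3, k4, k5, k6⟩ := hk
    obtain ⟨k', rfl⟩ := Int.eq_ofNat_of_zero_le (by omega : 0 ≤ k)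
    exact ⟨k', by exact_mod_cast k1, by exact_mod_cast k2, k3, k4, k5, k6⟩
  rcases lt_trichotomy (g % (p : ℤ)) (h % (p : ℤ)) with hlt | heq | hgt
  · obtain ⟨v, h1, h2, k, h3, h4, h5⟩ := main g h hg hh hgh hlt
    exact ⟨v, h1, h2, k, h3, h4, Or.inl h5⟩
  · exfalso
    have h1 : (p : ℤ) ∣ h - g := by
      have : g ≡ h [ZMOD p] := heq
      exact (Int.modEq_iff_dvd).1 this
    have h2 : IsUnit (p : ℤ) := hgh.isUnit_of_dvd' h1 (dvd_refl _)
    rw [Int.isUnit_iff] at h2
    omega
  · have hgh' : IsCoprime (g - h) (p : ℤ) := by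
      have : g - h = -(h - g) := by ring
      rw [this]
      exact hgh.neg_left
    obtain ⟨v, h1, h2, k, h3, h4, h5⟩ := main h g hh hg hgh' hgt
    exact ⟨v, h1, h2, k, h3, h4, Or.inr h5⟩

/-- **The core.** -/
theorem core {p : ℕ} (hp : 2 ≤ p) {q c R : ℤ} (hR : R = 1 + c * q) (hq : IsCoprime q p)
    (hc : IsCoprime c p) (hRp : IsCoprime R p) :
    ∃ k : ℕ, 1 ≤ k ∧ k < p ∧ ∃ b : ℤ,
      2 ≤ |NN p R k b - NN p R k (b - 1) - NN p R k (b - c) + NN p R k (b - c - 1)| := by
  have inv : ∀ u : ℤ, IsCoprime u p → ∃ u' : ℤ, u * u' ≡ 1 [ZMOD p] ∧ IsCoprime u' (p : ℤ) := by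
    intro u hu
    obtain ⟨a, b, hab⟩ := hu
    refine ⟨a, ?_, ?_⟩
    · rw [Int.modEq_iff_dvd]
      refine ⟨b, ?_⟩
      linarith
    · exact ⟨u, b, by linarith⟩
  obtain ⟨q', hq1, hq2⟩ := inv q hq
  obtain ⟨c', hc1, hc2⟩ := inv c hc
  obtain ⟨R', hR1, hR2⟩ := inv R hRp
  -- the two multipliers
  have hcR : IsCoprime (c * R') (p : ℤ) := hc.mul_left hR2
  have hdiff : IsCoprime (c * R' - q') (p : ℤ) := by
    -- R * q * (c R' - q') = -1
    have h1 : R * q * (c * R' - q') ≡ -1 [ZMOD p] := by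
      have h2 : R * q * (c * R' - q') = (R * R') * (c * q) - R * (q * q') := by ring
      rw [h2]
      have h3 : (R * R') * (c * q) - R * (q * q') ≡ 1 * (c * q) - R * 1 [ZMOD p] :=
        Int.ModEq.sub (hR1.mul_right _) (hq1.mul_left _)
      refine h3.trans ?_
      rw [hR]
      have : 1 * (c * q) - (1 + c * q) * 1 = (-1 : ℤ) := by ring
      rw [this]
    rw [Int.modEq_iff_dvd] at h1
    obtain ⟨m, hm⟩ := h1
    exact ⟨-(R * q), -m, by linarith⟩
  obtain ⟨v, hv1, hv2, k, hk1, hk2, hjump⟩ := jump hp hq2 hcR hdiff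
  refine ⟨k, hk1, hk2, (k : ℤ) + c * (q * k - v), ?_⟩
  set b : ℤ := (k : ℤ) + c * (q * k - v) with hb
  have hS : (R - 1) * (c' * q') ≡ 1 [ZMOD p] := by
    have h1 : (R - 1) * (c' * q') = (c * c') * (q * q') := by rw [hR]; ring
    rw [h1]
    have := Int.ModEq.mul hc1 hq1
    simpa using this
  have d1 := diff (p := p) hk1 hk2 (R := R) (R' := R') (S' := c' * q') b hR1 hS
  have d2 := diff (p := p) hk1 hk2 (R := R) (R' := R') (S' := c' * q') (b - c) hR1 hS
  have hp' : (0 : ℤ) < p := by exact_mod_cast (by omega : 0 < p)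
  have nz : ∀ u : ℤ, IsCoprime u p → ∀ v : ℕ, 1 ≤ v → v < p → (u * v) % (p : ℤ) ≠ 0 := by
    intro u hu v h1 h2 h3
    have h4 : (p : ℤ) ∣ u * v := Int.dvd_of_emod_eq_zero h3
    have h5 : (p : ℤ) ∣ v := hu.symm.dvd_of_dvd_mul_left h4
    have h6 : p ∣ v := by exact_mod_cast h5
    have := Nat.le_of_dvd (by omega) h6
    omega
  have y0 : ∀ w : ℤ, R' * ((k : ℤ) + c * (q * k - w)) ≡ k - c * R' * w [ZMOD p] := by
    intro w
    have h1 : R' * ((k : ℤ) + c * (q * k - w)) = (R * R') * k - c * R' * w := by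
      rw [hR]; ring
    rw [h1]
    have h2 : (R * R') * (k : ℤ) - c * R' * w ≡ 1 * k - c * R' * w [ZMOD p] :=
      Int.ModEq.sub_right _ (hR1.mul_right _)
    simpa using h2
  have y1 : ∀ w : ℤ, (c' * q') * (((k : ℤ) + c * (q * k - w)) - k) ≡ k - q' * w [ZMOD p] := by
    intro w
    have h1 : (c' * q') * (((k : ℤ) + c * (q * k - w)) - k) =
        (c * c') * ((q * q') * k - q' * w) := by ring
    rw [h1]
    have h2 : (c * c') * ((q * q') * (k : ℤ) - q' * w) ≡ 1 * (1 * k - q' * w) [ZMOD p] :=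
      Int.ModEq.mul hc1 (Int.ModEq.sub_right _ (hq1.mul_right _))
    simpa using h2
  have hb' : b - c = (k : ℤ) + c * (q * k - ((v : ℤ) + 1)) := by rw [hb]; ring
  have z1 := nz (c * R') hcR v hv1 (by omega)
  have z2 := nz q' hq2 v hv1 (by omega)
  have z3 := nz (c * R') hcR (v + 1) (by omega) hv2
  have z4 := nz q' hq2 (v + 1) (by omega) hv2
  push_cast at z3 z4
  have i1 := lt_iff hk2 z1 (y0 v)
  have i2 := lt_iff hk2 z2 (y1 v)
  have i3 := lt_iff hk2 z3 (y0 (v + 1))
  have i4 := lt_iff hk2 z4 (y1 (v + 1))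
  rw [← hb] at i1 i2
  rw [← hb'] at i3 i4
  have total : NN p R k b - NN p R k (b - 1) - NN p R k (b - c) + NN p R k (b - c - 1) =
      (NN p R k b - NN p R k (b - 1)) - (NN p R k (b - c) - NN p R k (b - c - 1)) := by ring
  rw [total, d1, d2]
  simp only [i1, i2, i3, i4]
  rcases hjump with ⟨j1, j2, j3, j4⟩ | ⟨j1, j2, j3, j4⟩
  · rw [if_neg (not_le.2 j2), if_pos j1, if_pos j4, if_neg (not_le.2 j3)]
    norm_num
  · rw [if_pos j1, if_neg (not_le.2 j2), if_neg (not_le.2 j3), if_pos j4]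
    norm_num

end Pool.Agent.H84.FL
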