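import Pool.Agent.H84.FL.Core

/-!
MP_fd220b_nt, flat ternary inclusion-exclusion polynomials with `r ≡ ± 1 (mod q)`: the combinatorial core when
`r ∓ 1` and `p` have a common divisor `d ≥ 2` but `p` does not divide `r ∓ 1`. `NX p R k x b` counts one more
point, `(x, k - x)`, if it lies in the class `b`.
-/

set_option autoImplicit false

namespace Pool.Agent.H84.FL

open Finset

/-- `NN` with the point `(x, k - x)` of the hypotenuse added -/
def NX (p : ℕ) (R : ℤ) (k x : ℕ) (b : ℤ) : ℤ :=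
  NN p R k b + if x ≤ k ∧ (b - R * ((k : ℤ) - x)) % (p : ℤ) = x then 1 else 0

/-- first difference, when `b - k` is not divisible by a common divisor of `p` and `R - 1` -/
theorem diff2 {p : ℕ} {k : ℕ} (h2 : k < p) {R R' d : ℤ} (b : ℤ)
    (hR : R * R' ≡ 1 [ZMOD p]) (hdp : d ∣ (p : ℤ)) (hdR : d ∣ R - 1) (hb : ¬ d ∣ b - k) :
    NN p R k b - NN p R k (b - 1) = if (R' * b) % (p : ℤ) < k then 1 else 0 := by
  have hp : 0 < p := by omega
  unfold NN
  rw [← Finset.sum_sub_distrib]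
  have e1 : ∀ y ∈ range k,
      ((if (b - R * (y : ℤ)) % (p : ℤ) < (k : ℤ) - y then 1 else 0 : ℤ) -
        (if (b - 1 - R * (y : ℤ)) % (p : ℤ) < (k : ℤ) - y then 1 else 0)) =
      (if (b - R * (y : ℤ)) % (p : ℤ) = 0 then 1 else 0) := by
    intro y hy
    have hy' := mem_range.1 hy
    have h3 := point (p := (p : ℤ)) (a := b - R * (y : ℤ)) (s := (k : ℤ) - y) (by omega) (by omega)
    have h4 : ¬ (b - R * (y : ℤ)) % (p : ℤ) = (k : ℤ) - y := by
      intro h5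
      apply hb
      have h6 : (p : ℤ) ∣ (b - R * (y : ℤ)) - ((k : ℤ) - y) := by
        rw [← h5]
        exact Int.dvd_self_sub_emod
      have h7 : d ∣ (b - R * (y : ℤ)) - ((k : ℤ) - y) := hdp.trans h6
      have h8 : b - k = ((b - R * (y : ℤ)) - ((k : ℤ) - y)) + (R - 1) * y := by ring
      rw [h8]
      exact dvd_add h7 (hdR.mul_right _)
    rw [if_neg h4, sub_zero] at h3
    rw [← h3]
    congr 3
    ring_nf
  rw [Finset.sum_congr rfl e1]
  rw [count1 hp h2.le (u := R) (u' := R') (t := b) hR]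
  intro y hy
  constructor
  · intro h
    have h5 := Int.dvd_of_emod_eq_zero h
    rw [Int.modEq_iff_dvd]
    exact h5
  · intro h
    rw [Int.modEq_iff_dvd] at h
    exact Int.emod_eq_zero_of_dvd h

theorem lt_iff2 {p : ℕ} {k : ℕ} (h2 : k + 1 < p) {y t : ℤ} (ht0 : t % (p : ℤ) ≠ 1)
    (hy : y ≡ (k : ℤ) + 1 - t [ZMOD p]) :
    y % (p : ℤ) < k ↔ (0 < t % (p : ℤ) ∧ t % (p : ℤ) ≤ (k : ℤ) + 1) := by
  have hp' : (0 : ℤ) < p := by exact_mod_cast (by omega : 0 < p)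
  have h0 : 0 ≤ t % (p : ℤ) := Int.emod_nonneg _ hp'.ne'
  have h1 : t % (p : ℤ) < p := Int.emod_lt_of_pos _ hp'
  have h3 : y % (p : ℤ) = ((k : ℤ) + 1 - t % p) % p := by
    have h4 : y ≡ (k : ℤ) + 1 - t % p [ZMOD p] := by
      refine hy.trans ?_
      exact Int.ModEq.sub_left _ (Int.mod_modEq t p).symm
    exact h4
  by_cases h5 : t % (p : ℤ) ≤ (k : ℤ) + 1
  · have h6 : ((k : ℤ) + 1 - t % p) % p = (k : ℤ) + 1 - t % p := Int.emod_eq_of_lt (by omega) (by omega)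
    rw [h3, h6]
    constructor
    · intro _; exact ⟨by omega, h5⟩
    · intro _; omega
  · have h6 : ((k : ℤ) + 1 - t % p) % p = (k : ℤ) + 1 - t % p + p := by
      have : ((k : ℤ) + 1 - t % p) % p = ((k : ℤ) + 1 - t % p + p) % p := by simp
      rw [this]
      exact Int.emod_eq_of_lt (by omega) (by omega)
    rw [h3, h6]
    constructor
    · intro h; omega
    · intro h; omega

/-- discrete intermediate value, with a second sequence of multiples which may vanish -/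
theorem jump2 {p : ℕ} (hp : 2 ≤ p) {g h : ℤ} (hg : IsCoprime g p) (hh : ¬ (p : ℤ) ∣ h)
    (hgh : IsCoprime (h - g) p) :
    ∃ v : ℕ, 1 ≤ v ∧ v + 1 < p ∧ ∃ k : ℕ, 1 ≤ k ∧ k < p ∧
      ((((g * v) % (p : ℤ) ≤ k ∧ ¬ (0 < (h * v) % (p : ℤ) ∧ (h * v) % (p : ℤ) ≤ k)) ∧
        (k < (g * (v + 1)) % (p : ℤ) ∧
          (0 < (h * (v + 1)) % (p : ℤ) ∧ (h * (v + 1)) % (p : ℤ) ≤ k))) ∨
       ((k < (g * v) % (p : ℤ) ∧ (0 < (h * v) % (p : ℤ) ∧ (h * v) % (p : ℤ) ≤ k)) ∧
        ((g * (v + 1)) % (p : ℤ) ≤ k ∧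
          ¬ (0 < (h * (v + 1)) % (p : ℤ) ∧ (h * (v + 1)) % (p : ℤ) ≤ k)))) := by
  have hp' : (0 : ℤ) < p := by exact_mod_cast (by omega : 0 < p)
  have nz : ∀ u : ℤ, IsCoprime u p → ∀ v : ℕ, 1 ≤ v → v < p → (u * v) % (p : ℤ) ≠ 0 := by
    intro u hu v h1 h2 h3
    have h4 : (p : ℤ) ∣ u * v := Int.dvd_of_emod_eq_zero h3
    have h5 : (p : ℤ) ∣ v := hu.symm.dvd_of_dvd_mul_left h4
    have h6 : p ∣ v := by exact_mod_cast h5
    have := Nat.le_of_dvd (by omega) h6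
    omega
  have bd : ∀ u : ℤ, 0 ≤ u % (p : ℤ) ∧ u % (p : ℤ) < p := fun u =>
    ⟨Int.emod_nonneg _ hp'.ne', Int.emod_lt_of_pos _ hp'⟩
  have neg : ∀ u : ℤ, u % (p : ℤ) ≠ 0 → (u * ((p - 1 : ℕ) : ℤ)) % (p : ℤ) = p - u % p := by
    intro u h2
    have h1 : u * ((p - 1 : ℕ) : ℤ) = -u + p * u := by
      have : ((p - 1 : ℕ) : ℤ) = (p : ℤ) - 1 := by
        push_cast [Nat.cast_sub (by omega : 1 ≤ p)]
        ring
      rw [this]; ring
    rw [h1, Int.add_mul_emod_self_left]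
    have h3 := bd u
    have h4 : (-u) % (p : ℤ) = (p - u % p) % p := by
      have : (-u) ≡ p - u % p [ZMOD p] := by
        rw [Int.modEq_iff_dvd]
        have h5 : (p : ℤ) - u % p - -u = p + (u - u % p) := by ring
        rw [h5]
        refine dvd_add (dvd_refl _) ?_
        exact Int.dvd_self_sub_emod
      exact this
    rw [h4]
    exact Int.emod_eq_of_lt (by omega) (by omega)
  have hh0 : h % (p : ℤ) ≠ 0 := fun h3 => hh (Int.dvd_of_emod_eq_zero h3)
  have hg0 : g % (p : ℤ) ≠ 0 := by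
    have := nz g hg 1 le_rfl (by omega)
    simpa using this
  -- D never vanishes
  have dn : ∀ v : ℕ, 1 ≤ v → v < p → (h * v) % (p : ℤ) ≠ (g * v) % (p : ℤ) := by
    intro v h1 h2 h3
    apply nz (h - g) hgh v h1 h2
    have : (h * v : ℤ) ≡ g * v [ZMOD p] := h3
    rw [Int.modEq_iff_dvd] at this
    have h4 : (h - g) * v = -(g * v - h * v) := by ring
    rw [h4]
    exact Int.emod_eq_zero_of_dvd ((dvd_neg).2 this)
  have e1 : ∀ u : ℤ, ∀ v : ℕ, u * ((v + 1 : ℕ) : ℤ) = u * v + u := by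
    intro u v; push_cast; ring
  have e1' : ∀ u : ℤ, ∀ v : ℕ, u * ((v : ℤ) + 1) = u * v + u := by
    intro u v; ring
  have bg := bd g
  have bh := bd h
  rcases lt_or_gt_of_ne (fun heq : g % (p : ℤ) = h % (p : ℤ) => dn 1 le_rfl (by omega) (by
    simpa using heq.symm)) with hlt | hgt
  · -- `g < h`: a step from `X < Y` or `Y = ∞` to `Y < X`
    have ex : ∃ v : ℕ, 1 ≤ v ∧ v + 1 < p ∧
        ((g * v) % (p : ℤ) < (h * v) % (p : ℤ) ∨ (h * v) % (p : ℤ) = 0) ∧
        ((h * ((v + 1 : ℕ) : ℤ)) % (p : ℤ) < (g * ((v + 1 : ℕ) : ℤ)) % (p : ℤ) ∧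
          (h * ((v + 1 : ℕ) : ℤ)) % (p : ℤ) ≠ 0) := by
      by_contra hcon
      push Not at hcon
      have all : ∀ v : ℕ, 1 ≤ v → v < p →
          ((g * v) % (p : ℤ) < (h * v) % (p : ℤ) ∨ (h * v) % (p : ℤ) = 0) := by
        intro v hv
        induction v, hv using Nat.le_induction with
        | base => intro _; left; simpa using hlt
        | succ v hv ih =>
          intro h2
          have h3 := hcon v hv h2 (ih (by omega))
          have h4 := dn (v + 1) (by omega) h2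
          by_cases h5 : (h * ((v + 1 : ℕ) : ℤ)) % (p : ℤ) = 0
          · exact Or.inr h5
          · left
            have h6 : ¬ (h * ((v + 1 : ℕ) : ℤ)) % (p : ℤ) < (g * ((v + 1 : ℕ) : ℤ)) % (p : ℤ) :=
              fun h7 => h5 (h3 h7)
            omega
      have h5 := all (p - 1) (by omega) (by omega)
      rw [neg g hg0, neg h hh0] at h5
      omega
    obtain ⟨v, hv1, hv2, hv3, hv4, hv5⟩ := ex
    refine ⟨v, hv1, hv2, ?_⟩
    rw [e1 h v, e1 g v] at hv4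
    rw [e1 h v] at hv5
    rw [e1' g v, e1' h v]
    have c1 := emod_add_cases (a := g * v) (b := g) hp'
    have c2 := emod_add_cases (a := h * v) (b := h) hp'
    have b1 := bd (g * v)
    have b2 := bd (h * v)
    have b5 := bd (g * v + g)
    have b6 := bd (h * v + h)
    have z3 := nz g hg v hv1 (by omega)
    generalize (g * (v : ℤ)) % (p : ℤ) = Xv at *
    generalize (h * (v : ℤ)) % (p : ℤ) = Yv at *
    generalize (g * (v : ℤ) + g) % (p : ℤ) = X1 at *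
    generalize (h * (v : ℤ) + h) % (p : ℤ) = Y1 at *
    generalize g % (p : ℤ) = G at *
    generalize h % (p : ℤ) = H at *
    have hk : ∃ k : ℤ, 1 ≤ k ∧ k < p ∧ Xv ≤ k ∧ ¬ (0 < Yv ∧ Yv ≤ k) ∧ k < X1 ∧ (0 < Y1 ∧ Y1 ≤ k) := by
      refine ⟨max Xv Y1, ?_, ?_, le_max_left _ _, ?_, ?_, ?_, le_max_right _ _⟩
      · have : 1 ≤ Xv := by omega
        exact le_trans this (le_max_left _ _)
      · exact max_lt b1.2 b6.2
      · rcases hv3 with hv3 | hv3
        · intro h7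
          have : max Xv Y1 < Yv := by
            refine max_lt hv3 ?_
            omega
          omega
        · intro h7
          omega
      · refine max_lt ?_ hv4
        omega
      · omega
    obtain ⟨k, k1, k2, k3, k4, k5, k6⟩ := hk
    obtain ⟨k', rfl⟩ := Int.eq_ofNat_of_zero_le (by omega : 0 ≤ k)
    exact ⟨k', by exact_mod_cast k1, by exact_mod_cast k2, Or.inl ⟨⟨k3, k4⟩, k5, k6⟩⟩
  · -- `h < g`: a step from `Y < X` to `X < Y` or `Y = ∞`
    have ex : ∃ v : ℕ, 1 ≤ v ∧ v + 1 < p ∧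
        ((h * v) % (p : ℤ) < (g * v) % (p : ℤ) ∧ (h * v) % (p : ℤ) ≠ 0) ∧
        ((g * ((v + 1 : ℕ) : ℤ)) % (p : ℤ) < (h * ((v + 1 : ℕ) : ℤ)) % (p : ℤ) ∨
          (h * ((v + 1 : ℕ) : ℤ)) % (p : ℤ) = 0) := by
      by_contra hcon
      push Not at hcon
      have all : ∀ v : ℕ, 1 ≤ v → v < p →
          ((h * v) % (p : ℤ) < (g * v) % (p : ℤ) ∧ (h * v) % (p : ℤ) ≠ 0) := by
        intro v hv
        induction v, hv using Nat.le_induction with
        | base =>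
          intro _
          refine ⟨by simpa using hgt, by simpa using hh0⟩
        | succ v hv ih =>
          intro h2
          have h3 := hcon v hv h2 (ih (by omega))
          have h4 := dn (v + 1) (by omega) h2
          refine ⟨?_, h3.2⟩
          have h5 := h3.1
          omega
      have h5 := (all (p - 1) (by omega) (by omega)).1
      rw [neg g hg0, neg h hh0] at h5
      omega
    obtain ⟨v, hv1, hv2, ⟨hv3, hv5⟩, hv4⟩ := ex
    refine ⟨v, hv1, hv2, ?_⟩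
    have z4 := nz g hg (v + 1) (by omega) hv2
    rw [e1 h v, e1 g v] at hv4
    rw [e1 g v] at z4
    rw [e1' g v, e1' h v]
    have c1 := emod_add_cases (a := g * v) (b := g) hp'
    have c2 := emod_add_cases (a := h * v) (b := h) hp'
    have b1 := bd (g * v)
    have b2 := bd (h * v)
    have b5 := bd (g * v + g)
    have b6 := bd (h * v + h)
    have z3 := nz g hg v hv1 (by omega)
    generalize (g * (v : ℤ)) % (p : ℤ) = Xv at *
    generalize (h * (v : ℤ)) % (p : ℤ) = Yv at *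
    generalize (g * (v : ℤ) + g) % (p : ℤ) = X1 at *
    generalize (h * (v : ℤ) + h) % (p : ℤ) = Y1 at *
    generalize g % (p : ℤ) = G at *
    generalize h % (p : ℤ) = H at *
    have hk : ∃ k : ℤ, 1 ≤ k ∧ k < p ∧ k < Xv ∧ (0 < Yv ∧ Yv ≤ k) ∧ X1 ≤ k ∧ ¬ (0 < Y1 ∧ Y1 ≤ k) := by
      refine ⟨max Yv X1, ?_, ?_, ?_, ⟨by omega, le_max_left _ _⟩, le_max_right _ _, ?_⟩
      · have : 1 ≤ Yv := by omega
        exact le_trans this (le_max_left _ _)
      · exact max_lt b2.2 b5.2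
      · refine max_lt hv3 ?_
        omega
      · rcases hv4 with hv4 | hv4
        · intro h7
          have : max Yv X1 < Y1 := by
            refine max_lt ?_ hv4
            omega
          omega
        · intro h7
          omega
    obtain ⟨k, k1, k2, k3, k4, k5, k6⟩ := hk
    obtain ⟨k', rfl⟩ := Int.eq_ofNat_of_zero_le (by omega : 0 ≤ k)
    exact ⟨k', by exact_mod_cast k1, by exact_mod_cast k2, Or.inr ⟨⟨k3, k4⟩, k5, k6⟩⟩

theorem unit_inv {p : ℕ} (u : ℤ) (hu : IsCoprime u (p : ℤ)) :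
    ∃ u' : ℤ, u * u' ≡ 1 [ZMOD p] ∧ IsCoprime u' (p : ℤ) := by
  obtain ⟨a, b, hab⟩ := hu
  refine ⟨a, ?_, ?_⟩
  · rw [Int.modEq_iff_dvd]
    refine ⟨b, ?_⟩
    linarith
  · exact ⟨u, b, by linarith⟩

/-- the four values of `NX` -/
theorem four {p k x1 x2 : ℕ} (hkp : k + 1 < p) (hx1 : x1 < p) (hx2 : x2 < p) {q c R R' d : ℤ}
    (hR : R = 1 + c * q) (hR1 : R * R' ≡ 1 [ZMOD p]) (hd : 2 ≤ d) (hdp : d ∣ (p : ℤ)) (hdc : d ∣ c)
    (hx : q * x2 ≡ q * x1 + 1 [ZMOD p])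
    {q' : ℤ} (hq1 : q * q' ≡ 1 [ZMOD p])
    (b : ℤ) (hb : b = 1 + x1 + R * (k - x1)) :
    NX p R k x1 b - NX p R k x1 (b - 1) - NX p R k x2 (b - c) + NX p R k x2 (b - c - 1) =
      (if 0 < (c * q * R' * ((x1 : ℤ) + 1)) % (p : ℤ) ∧
        (c * q * R' * ((x1 : ℤ) + 1)) % (p : ℤ) ≤ (k : ℤ) + 1 then 1 else 0) -
      (if 0 < (c * q * R' * ((x2 : ℤ) + 1)) % (p : ℤ) ∧
        (c * q * R' * ((x2 : ℤ) + 1)) % (p : ℤ) ≤ (k : ℤ) + 1 then 1 else 0) -
      (if x1 ≤ k then 1 else 0) + (if x2 ≤ k then 1 else 0) := by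
  have hp' : (0 : ℤ) < p := by exact_mod_cast (by omega : 0 < p)
  have hdR : d ∣ R - 1 := by
    rw [hR]
    have : 1 + c * q - 1 = c * q := by ring
    rw [this]
    exact hdc.mul_right _
  have hd1 : ¬ d ∣ 1 := fun h => by
    have := Int.le_of_dvd one_pos h
    omega
  -- `x2 ≡ x1 + q'`
  have hx3 : (x2 : ℤ) ≡ x1 + q' [ZMOD p] := by
    have h1 := hx.mul_left q'
    have h2 : q' * (q * (x2 : ℤ)) ≡ 1 * x2 [ZMOD p] := by
      have : q' * (q * (x2 : ℤ)) = (q * q') * x2 := by ring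
      rw [this]
      exact hq1.mul_right _
    have h3 : q' * (q * (x1 : ℤ) + 1) ≡ 1 * x1 + q' [ZMOD p] := by
      have : q' * (q * (x1 : ℤ) + 1) = (q * q') * x1 + q' := by ring
      rw [this]
      exact (hq1.mul_right _).add_right _
    have h4 := (h2.symm.trans h1).trans h3
    simpa using h4
  have hb1 : ¬ d ∣ b - k := by
    intro h
    apply hd1
    have e : (1 : ℤ) = (b - k) - (R - 1) * (k - x1) := by rw [hb]; ring
    rw [e]
    exact dvd_sub h (hdR.mul_right _)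
  have hb2 : ¬ d ∣ (b - c) - k := by
    intro h
    apply hb1
    have e : b - k = ((b - c) - k) + c := by ring
    rw [e]
    exact dvd_add h hdc
  have d1 := diff2 (p := p) (k := k) (by omega) b hR1 hdp hdR hb1
  have d2 := diff2 (p := p) (k := k) (by omega) (b - c) hR1 hdp hdR hb2
  -- the extra points
  have m1 : ∀ u : ℤ, ∀ x : ℕ, x < p → (u % (p : ℤ) = x ↔ (p : ℤ) ∣ u - x) := by
    intro u x hxp
    constructor
    · intro h
      rw [← h]
      exact Int.dvd_self_sub_emod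
    · intro h
      have h1 : (x : ℤ) ≡ u [ZMOD p] := (Int.modEq_iff_dvd).2 h
      have h2 : (x : ℤ) % p = x := Int.emod_eq_of_lt (by positivity) (by exact_mod_cast hxp)
      rw [← h1, h2]
  have p1 : ¬ (p : ℤ) ∣ 1 := fun h => hd1 (hdp.trans h)
  have t1 : ¬ (x1 ≤ k ∧ (b - R * ((k : ℤ) - x1)) % (p : ℤ) = x1) := by
    rintro ⟨-, h⟩
    rw [m1 _ _ hx1] at h
    apply p1
    have e : b - R * ((k : ℤ) - x1) - x1 = 1 := by rw [hb]; ring
    rwa [e] at h
  have t2 : (x1 ≤ k ∧ (b - 1 - R * ((k : ℤ) - x1)) % (p : ℤ) = x1) ↔ x1 ≤ k := by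
    constructor
    · exact fun h => h.1
    · intro h
      refine ⟨h, ?_⟩
      rw [m1 _ _ hx1]
      have e : b - 1 - R * ((k : ℤ) - x1) - x1 = 0 := by rw [hb]; ring
      rw [e]
      exact dvd_zero _
  -- `b - c - R (k - x2) - x2 ≡ 1`
  have key : (p : ℤ) ∣ (b - c - R * ((k : ℤ) - x2) - x2) - 1 := by
    have e : (b - c - R * ((k : ℤ) - x2) - x2) - 1 = c * (q * x2 - (q * x1 + 1)) := by
      rw [hb, hR]; ring
    rw [e]
    refine dvd_mul_of_dvd_right ?_ _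
    rw [Int.modEq_iff_dvd] at hx
    have e2 : q * (x2 : ℤ) - (q * x1 + 1) = -(q * x1 + 1 - q * x2) := by ring
    rw [e2]
    exact (dvd_neg).2 hx
  have t3 : ¬ (x2 ≤ k ∧ (b - c - R * ((k : ℤ) - x2)) % (p : ℤ) = x2) := by
    rintro ⟨-, h⟩
    rw [m1 _ _ hx2] at h
    apply p1
    have e : (1 : ℤ) = (b - c - R * ((k : ℤ) - x2) - x2) - ((b - c - R * ((k : ℤ) - x2) - x2) - 1) := by
      ring
    rw [e]
    exact dvd_sub h key
  have t4 : (x2 ≤ k ∧ (b - c - 1 - R * ((k : ℤ) - x2)) % (p : ℤ) = x2) ↔ x2 ≤ k := by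
    constructor
    · exact fun h => h.1
    · intro h
      refine ⟨h, ?_⟩
      rw [m1 _ _ hx2]
      have e : b - c - 1 - R * ((k : ℤ) - x2) - x2 = (b - c - R * ((k : ℤ) - x2) - x2) - 1 := by ring
      rw [e]
      exact key
  -- the residues
  have y1 : ∀ x : ℕ, ∀ b' : ℤ, b' ≡ 1 + x + R * (k - x) [ZMOD p] →
      (R' * b' ≡ (k : ℤ) + 1 - c * q * R' * (x + 1) [ZMOD p]) := by
    intro x b' h1
    have h2 := h1.mul_left R'
    refine h2.trans ?_
    have e : R' * (1 + (x : ℤ) + R * (k - x)) = R' * (1 + x) + (R * R') * (k - x) := by ring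
    rw [e]
    have e2 : (k : ℤ) + 1 - c * q * R' * (x + 1) = (k : ℤ) + 1 - (R * R' - R') * (x + 1) := by
      rw [hR]; ring
    rw [e2]
    have h3 : R' * (1 + (x : ℤ)) + (R * R') * (k - x) ≡ R' * (1 + x) + 1 * (k - x) [ZMOD p] :=
      (hR1.mul_right _).add_left _
    refine h3.trans ?_
    have h4 : (k : ℤ) + 1 - (R * R' - R') * (x + 1) ≡ (k : ℤ) + 1 - (1 - R') * (x + 1) [ZMOD p] :=
      Int.ModEq.sub_left _ ((hR1.sub_right _).mul_right _)
    have e3 : R' * (1 + (x : ℤ)) + 1 * (k - x) = (k : ℤ) + 1 - (1 - R') * (x + 1) := by ring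
    rw [e3]
    exact h4.symm
  have n1 : ∀ u : ℤ, (c * q * R' * u) % (p : ℤ) ≠ 1 := by
    intro u h
    apply hd1
    have h1 : (p : ℤ) ∣ c * q * R' * u - 1 := by
      rw [← h]
      exact Int.dvd_self_sub_emod
    have h2 : d ∣ c * q * R' * u := ((hdc.mul_right _).mul_right _).mul_right _
    have e : (1 : ℤ) = c * q * R' * u - (c * q * R' * u - 1) := by ring
    rw [e]
    exact dvd_sub h2 (hdp.trans h1)
  have i1 := lt_iff2 hkp (n1 ((x1 : ℤ) + 1)) (y1 x1 b (by rw [hb]))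
  have i2 := lt_iff2 hkp (n1 ((x2 : ℤ) + 1)) (y1 x2 (b - c) (by
    rw [Int.modEq_iff_dvd]
    have e : (1 + (x2 : ℤ) + R * (k - x2)) - (b - c) = -((b - c - R * ((k : ℤ) - x2) - x2) - 1) := by
      ring
    rw [e]
    exact (dvd_neg).2 key))
  unfold NX
  simp only [t1, t2, t3, t4, if_false, i1, i2] at *
  have total : NN p R k b + 0 - (NN p R k (b - 1) + if x1 ≤ k then 1 else 0) -
      (NN p R k (b - c) + 0) + (NN p R k (b - c - 1) + if x2 ≤ k then 1 else 0) =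
      (NN p R k b - NN p R k (b - 1)) - (NN p R k (b - c) - NN p R k (b - c - 1)) -
        (if x1 ≤ k then 1 else 0) + (if x2 ≤ k then 1 else 0) := by ring
  rw [total, d1, d2]

/-- **The core**, common divisor `d ≥ 2` of `c` and `p`. -/
theorem core2 {p : ℕ} (hp : 2 ≤ p) {q c R d : ℤ} (hR : R = 1 + c * q) (hq : IsCoprime q p)
    (hRp : IsCoprime R p) (hc : ¬ (p : ℤ) ∣ c) (hd : 2 ≤ d) (hdp : d ∣ (p : ℤ)) (hdc : d ∣ c) :
    ∃ k : ℕ, 1 ≤ k ∧ k + 1 < p ∧ ∃ x1 x2 : ℕ, x1 < p ∧ x2 < p ∧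
      q * x2 ≡ q * x1 + 1 [ZMOD p] ∧ ∃ b : ℤ,
      2 ≤ |NX p R k x1 b - NX p R k x1 (b - 1) - NX p R k x2 (b - c) + NX p R k x2 (b - c - 1)| := by
  have hp' : (0 : ℤ) < p := by exact_mod_cast (by omega : 0 < p)
  obtain ⟨q', hq1, hq2⟩ := unit_inv q hq
  obtain ⟨R', hR1, hR2⟩ := unit_inv R hRp
  have hcR : ¬ (p : ℤ) ∣ c * R' := fun h => hc (hR2.symm.dvd_of_dvd_mul_right h)
  have hdiff : IsCoprime (c * R' - q') (p : ℤ) := by
    have h1 : R * q * (c * R' - q') ≡ -1 [ZMOD p] := by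
      have h2 : R * q * (c * R' - q') = (R * R') * (c * q) - R * (q * q') := by ring
      rw [h2]
      have h3 : (R * R') * (c * q) - R * (q * q') ≡ 1 * (c * q) - R * 1 [ZMOD p] :=
        Int.ModEq.sub (hR1.mul_right _) (hq1.mul_left _)
      refine h3.trans ?_
      rw [hR]
      have : 1 * (c * q) - (1 + c * q) * 1 = (-1 : ℤ) := by ring
      rw [this]
    rw [Int.modEq_iff_dvd] at h1
    obtain ⟨m, hm⟩ := h1
    exact ⟨-(R * q), -m, by linarith⟩
  obtain ⟨v, hv1, hv2, k', hk1, hk2, hjump⟩ := jump2 hp hq2 hcR hdiff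
  have nz : ∀ v : ℕ, 1 ≤ v → v < p → (q' * v) % (p : ℤ) ≠ 0 := by
    intro v h1 h2 h3
    have h4 : (p : ℤ) ∣ q' * v := Int.dvd_of_emod_eq_zero h3
    have h5 : (p : ℤ) ∣ v := hq2.symm.dvd_of_dvd_mul_left h4
    have h6 : p ∣ v := by exact_mod_cast h5
    have := Nat.le_of_dvd (by omega) h6
    omega
  have bd : ∀ u : ℤ, 0 ≤ u % (p : ℤ) ∧ u % (p : ℤ) < p := fun u =>
    ⟨Int.emod_nonneg _ hp'.ne', Int.emod_lt_of_pos _ hp'⟩
  -- `Y` is a multiple of `d`
  have hY : ∀ u : ℤ, 0 < (c * R' * u) % (p : ℤ) → 2 ≤ (c * R' * u) % (p : ℤ) := by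
    intro u hu
    have h1 : d ∣ (c * R' * u) % (p : ℤ) := by
      rw [Int.emod_def]
      exact dvd_sub ((hdc.mul_right _).mul_right _) (hdp.mul_right _)
    exact hd.trans (Int.le_of_dvd hu h1)
  have hk3 : 2 ≤ k' := by
    rcases hjump with ⟨-, -, h1, h2⟩ | ⟨⟨-, h1, h2⟩, -⟩
    · have := hY _ h1
      omega
    · have := hY _ h1
      omega
  -- the points
  have w1 := bd (q' * v)
  have w2 := bd (q' * (v + 1))
  have w3 := nz v hv1 (by omega)
  have w4 := nz (v + 1) (by omega) hv2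
  push_cast at w4
  obtain ⟨X1, hX1⟩ := Int.eq_ofNat_of_zero_le w1.1
  obtain ⟨X2, hX2⟩ := Int.eq_ofNat_of_zero_le w2.1
  have X1p : 1 ≤ X1 := by omega
  have X2p : 1 ≤ X2 := by omega
  have c1 : (((X1 - 1 : ℕ) : ℤ) + 1) = X1 := by
    rw [Nat.cast_sub X1p]; push_cast; ring
  have c2 : (((X2 - 1 : ℕ) : ℤ) + 1) = X2 := by
    rw [Nat.cast_sub X2p]; push_cast; ring
  have r1 : (X1 : ℤ) ≡ q' * v [ZMOD p] := by
    rw [← hX1]; exact Int.mod_modEq _ _
  have r2 : (X2 : ℤ) ≡ q' * (v + 1) [ZMOD p] := by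
    rw [← hX2]; exact Int.mod_modEq _ _
  have hx : q * ((X2 - 1 : ℕ) : ℤ) ≡ q * ((X1 - 1 : ℕ) : ℤ) + 1 [ZMOD p] := by
    have h1 : q * (X2 : ℤ) ≡ v + 1 [ZMOD p] := by
      have h2 := r2.mul_left q
      have h3 : q * (q' * ((v : ℤ) + 1)) = (q * q') * (v + 1) := by ring
      rw [h3] at h2
      have h4 := h2.trans (hq1.mul_right _)
      simpa using h4
    have h5 : q * (X1 : ℤ) ≡ v [ZMOD p] := by
      have h2 := r1.mul_left q
      have h3 : q * (q' * (v : ℤ)) = (q * q') * v := by ring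
      rw [h3] at h2
      have h4 := h2.trans (hq1.mul_right _)
      simpa using h4
    have e1 : q * ((X2 - 1 : ℕ) : ℤ) = q * X2 - q := by rw [← c2]; ring
    have e2 : q * ((X1 - 1 : ℕ) : ℤ) + 1 = q * X1 - q + 1 := by rw [← c1]; ring
    rw [e1, e2]
    have h6 := h1.sub_right q
    have h7 := (h5.sub_right q).add_right 1
    have e3 : (v : ℤ) + 1 - q = v - q + 1 := by ring
    rw [e3] at h6
    exact h6.trans h7.symm
  refine ⟨k' - 1, by omega, by omega, X1 - 1, X2 - 1, by omega, by omega, hx,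
    1 + ((X1 - 1 : ℕ) : ℤ) + R * (((k' - 1 : ℕ) : ℤ) - ((X1 - 1 : ℕ) : ℤ)), ?_⟩
  rw [four (by omega) (by omega) (by omega) hR hR1 hd hdp hdc hx hq1 _ rfl]
  have ck : ((k' - 1 : ℕ) : ℤ) + 1 = k' := by
    rw [Nat.cast_sub (by omega)]; push_cast; ring
  rw [c1, c2, ck]
  have s1 : (c * q * R' * (X1 : ℤ)) % (p : ℤ) = (c * R' * v) % (p : ℤ) := by
    have h1 := r1.mul_left (c * q * R')
    have e : c * q * R' * (q' * (v : ℤ)) = (q * q') * (c * R' * v) := by ring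
    rw [e] at h1
    have h2 := h1.trans (hq1.mul_right _)
    rw [one_mul] at h2
    exact h2
  have s2 : (c * q * R' * (X2 : ℤ)) % (p : ℤ) = (c * R' * (v + 1)) % (p : ℤ) := by
    have h1 := r2.mul_left (c * q * R')
    have e : c * q * R' * (q' * ((v : ℤ) + 1)) = (q * q') * (c * R' * (v + 1)) := by ring
    rw [e] at h1
    have h2 := h1.trans (hq1.mul_right _)
    rw [one_mul] at h2
    exact h2
  rw [s1, s2]
  have g1 : X1 - 1 ≤ k' - 1 ↔ (q' * (v : ℤ)) % (p : ℤ) ≤ k' := by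
    rw [hX1]
    constructor
    · intro h
      have : X1 ≤ k' := by omega
      exact_mod_cast this
    · intro h
      have : X1 ≤ k' := by exact_mod_cast h
      omega
  have g2 : X2 - 1 ≤ k' - 1 ↔ (q' * ((v : ℤ) + 1)) % (p : ℤ) ≤ k' := by
    rw [hX2]
    constructor
    · intro h
      have : X2 ≤ k' := by omega
      exact_mod_cast this
    · intro h
      have : X2 ≤ k' := by exact_mod_cast h
      omega
  simp only [g1, g2]
  rcases hjump with ⟨⟨j1, j2⟩, j3, j4⟩ | ⟨⟨j1, j2⟩, j3, j4⟩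
  · rw [if_neg j2, if_pos j4, if_pos j1, if_neg (not_le.2 j3)]
    norm_num
  · rw [if_pos j2, if_neg j4, if_neg (not_le.2 j1), if_pos j3]
    norm_num

end Pool.Agent.H84.FL
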