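import Pool.Agent.H84.FL.Eval
import Pool.Agent.H84.FL.Core2

/-!
MP_fd220b_nt, flat ternary inclusion-exclusion polynomials with `r ≡ ± 1 (mod q)`: evaluation of the
coefficient sums `CC` by `NX` (any offset `E` in `[0, p]`).
-/

set_option autoImplicit false

namespace Pool.Agent.H84.FL

open Finset

/-- one row -/
theorem row2 {p q r k y x0 : ℕ} {m B E : ℤ} (hp : 0 < p) (hpq : p < q) (hx0 : x0 < q)
    (h1 : ∀ x : ℕ, x < q → ((m - r * (p * x + q * y)) % ((p : ℤ) * q) < p ↔ x = x0))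
    (h2 : (q : ℤ) * B + E = p * x0 + (q * B + E) % p)
    (h4 : m < r * (q * k + E - p + 2)) (h5 : (r : ℤ) * (q * k + E - p + 1) ≤ m + p * q - p) :
    (∑ x ∈ range q,
      if (r : ℤ) * (p * x + q * y) ≤ m ∧ (m - r * (p * x + q * y)) % ((p : ℤ) * q) < p then 1 else 0 : ℤ) =
      (if B < (k : ℤ) - y then 1 else 0) +
        if B = (k : ℤ) - y ∧ (q * B + E) % (p : ℤ) = p - 1 then 1 else 0 := by
  have hq : 0 < q := by omega
  have hP : (0 : ℤ) < (p : ℤ) * q := by positivity
  have hr0 : (0 : ℤ) ≤ r := by positivity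
  have hp' : (0 : ℤ) < p := by exact_mod_cast hp
  have hpq' : (p : ℤ) < q := by exact_mod_cast hpq
  have hρ0 := Int.emod_nonneg ((q : ℤ) * B + E) hp'.ne'
  have hρ1 := Int.emod_lt_of_pos ((q : ℤ) * B + E) hp'
  have e1 : (∑ x ∈ range q,
      if (r : ℤ) * (p * x + q * y) ≤ m ∧ (m - r * (p * x + q * y)) % ((p : ℤ) * q) < p then 1 else 0 : ℤ) =
      if (r : ℤ) * (p * x0 + q * y) ≤ m then 1 else 0 := by
    rw [Finset.sum_eq_single_of_mem x0 (mem_range.2 hx0)]
    · have h6 := (h1 x0 hx0).2 rfl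
      simp only [h6, and_true]
    · intro x hx hne
      rw [if_neg]
      intro h
      exact hne ((h1 x (mem_range.1 hx)).1 h.2)
  rw [e1]
  -- the value is determined by `p x0 + q y ≤ T`
  have pos : (p : ℤ) * x0 + q * y ≤ q * k + E - p + 1 → (r : ℤ) * (p * x0 + q * y) ≤ m := by
    intro h7
    set V : ℤ := m - r * (p * x0 + q * y) with hV
    have h6 : V % ((p : ℤ) * q) < p := (h1 x0 hx0).2 rfl
    have h8 : (r : ℤ) * (p * x0 + q * y) ≤ m + p * q - p :=
      (mul_le_mul_of_nonneg_left h7 hr0).trans h5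
    have h9 : -((p : ℤ) * q) + p ≤ V := by rw [hV]; linarith
    have h10 : 0 ≤ V / ((p : ℤ) * q) := by
      by_contra hcon
      push Not at hcon
      have h11 : V / ((p : ℤ) * q) ≤ -1 := by omega
      have h12 : (p : ℤ) * q * (V / ((p : ℤ) * q)) ≤ (p : ℤ) * q * (-1) :=
        mul_le_mul_of_nonneg_left h11 hP.le
      have h13 := Int.mul_ediv_add_emod V ((p : ℤ) * q)
      linarith
    have h11 : 0 ≤ V := by
      have h13 := Int.mul_ediv_add_emod V ((p : ℤ) * q)
      have h14 := Int.emod_nonneg V hP.ne'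
      have h15 : 0 ≤ (p : ℤ) * q * (V / ((p : ℤ) * q)) := mul_nonneg hP.le h10
      linarith
    rw [hV] at h11
    linarith
  have neg : (q : ℤ) * k + E - p + 2 ≤ (p : ℤ) * x0 + q * y → ¬ (r : ℤ) * (p * x0 + q * y) ≤ m := by
    intro h7 h8
    have h9 := mul_le_mul_of_nonneg_left h7 hr0
    linarith
  rcases lt_trichotomy B ((k : ℤ) - y) with hB | hB | hB
  · have h6 : ¬ (B = (k : ℤ) - y ∧ (q * B + E) % (p : ℤ) = p - 1) := fun h => by omega
    rw [if_pos hB, if_neg h6, if_pos, add_zero]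
    apply pos
    have h8 : (q : ℤ) * B ≤ q * (k - 1 - y) := mul_le_mul_of_nonneg_left (by omega) (by positivity)
    nlinarith
  · have h6 : ¬ (B < (k : ℤ) - y) := by omega
    rw [if_neg h6, zero_add]
    by_cases h7 : (q * B + E) % (p : ℤ) = p - 1
    · have g : B = (k : ℤ) - y ∧ (q * B + E) % (p : ℤ) = p - 1 := ⟨hB, h7⟩
      rw [if_pos g, if_pos]
      apply pos
      have h8 : (q : ℤ) * B = q * (k - y) := by rw [hB]
      nlinarith
    · have g : ¬ (B = (k : ℤ) - y ∧ (q * B + E) % (p : ℤ) = p - 1) := fun h => h7 h.2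
      rw [if_neg g, if_neg]
      apply neg
      have h8 : (q : ℤ) * B = q * (k - y) := by rw [hB]
      have h9 : (q * B + E) % (p : ℤ) ≤ p - 2 := by omega
      nlinarith
  · have h6 : ¬ (B < (k : ℤ) - y) := by omega
    have h7 : ¬ (B = (k : ℤ) - y ∧ (q * B + E) % (p : ℤ) = p - 1) := fun h => by omega
    rw [if_neg h6, if_neg h7, if_neg, add_zero]
    apply neg
    have h8 : (q : ℤ) * (k - y + 1) ≤ q * B := mul_le_mul_of_nonneg_left (by omega) (by positivity)
    nlinarith

/-- summation of the rows -/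
theorem rows {p k x1 : ℕ} {q R b E : ℤ} (hp : 0 < p) (hq : IsCoprime q p)
    (hx1 : x1 < p) (hx : (p : ℤ) ∣ q * x1 + E + 1) :
    (∑ y ∈ range (k + 1), ((if (b - R * (y : ℤ)) % (p : ℤ) < (k : ℤ) - y then 1 else 0) +
        if (b - R * (y : ℤ)) % (p : ℤ) = (k : ℤ) - y ∧
          (q * ((b - R * (y : ℤ)) % (p : ℤ)) + E) % (p : ℤ) = p - 1 then 1 else 0) : ℤ) =
      NX p R k x1 b := by
  have hp' : (0 : ℤ) < p := by exact_mod_cast hp
  rw [Finset.sum_add_distrib, Finset.sum_range_succ]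
  have h0 : ¬ (b - R * (k : ℤ)) % (p : ℤ) < (k : ℤ) - k := by
    have := Int.emod_nonneg (b - R * (k : ℤ)) hp'.ne'
    omega
  rw [if_neg h0, add_zero]
  unfold NX NN
  congr 1
  -- `(q z + E) % p = p - 1` iff `z = x1` for `0 ≤ z < p`
  have key : ∀ z : ℤ, 0 ≤ z → z < p → ((q * z + E) % (p : ℤ) = p - 1 ↔ z = x1) := by
    intro z hz0 hz1
    have h1 : ((q * z + E) % (p : ℤ) = p - 1 ↔ (p : ℤ) ∣ q * z + E + 1) := by
      constructor
      · intro h
        have h2 : (p : ℤ) ∣ (q * z + E) - (q * z + E) % (p : ℤ) := Int.dvd_self_sub_emod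
        rw [h] at h2
        have e : q * z + E + 1 = (q * z + E - (p - 1)) + p := by ring
        rw [e]
        exact dvd_add h2 (dvd_refl _)
      · intro h
        have h2 : (p : ℤ) - 1 ≡ q * z + E [ZMOD p] := by
          rw [Int.modEq_iff_dvd]
          have e : q * z + E - (p - 1) = (q * z + E + 1) - p := by ring
          rw [e]
          exact dvd_sub h (dvd_refl _)
        have h3 : ((p : ℤ) - 1) % p = p - 1 := Int.emod_eq_of_lt (by omega) (by omega)
        rw [← h2, h3]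
    rw [h1]
    constructor
    · intro h
      have h2 : (p : ℤ) ∣ q * (z - x1) := by
        have e : q * (z - x1) = (q * z + E + 1) - (q * x1 + E + 1) := by ring
        rw [e]
        exact dvd_sub h hx
      have h3 : (p : ℤ) ∣ z - x1 := hq.symm.dvd_of_dvd_mul_left h2
      have h4 : (x1 : ℤ) ≡ z [ZMOD p] := (Int.modEq_iff_dvd).2 h3
      have h5 : (x1 : ℤ) % p = x1 := Int.emod_eq_of_lt (by positivity) (by exact_mod_cast hx1)
      have h6 : z % (p : ℤ) = z := Int.emod_eq_of_lt hz0 hz1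
      unfold Int.ModEq at h4
      rw [h5, h6] at h4
      exact h4.symm
    · intro h
      rw [h]
      exact hx
  have key2 : ∀ y ∈ range (k + 1), ((if (b - R * (y : ℤ)) % (p : ℤ) = (k : ℤ) - y ∧
          (q * ((b - R * (y : ℤ)) % (p : ℤ)) + E) % (p : ℤ) = p - 1 then 1 else 0 : ℤ) =
        if (y : ℤ) = (k : ℤ) - x1 ∧ (b - R * ((k : ℤ) - x1)) % (p : ℤ) = x1 then 1 else 0) := by
    intro y hy
    have hz0 := Int.emod_nonneg (b - R * (y : ℤ)) hp'.ne'
    have hz1 := Int.emod_lt_of_pos (b - R * (y : ℤ)) hp'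
    have h2 := key _ hz0 hz1
    congr 1
    apply propext
    rw [h2]
    constructor
    · rintro ⟨h3, h4⟩
      have h5 : (y : ℤ) = (k : ℤ) - x1 := by omega
      refine ⟨h5, ?_⟩
      rw [← h5, h4]
    · rintro ⟨h3, h4⟩
      rw [← h3] at h4
      exact ⟨by omega, h4⟩
  rw [Finset.sum_congr rfl key2]
  by_cases hxk : x1 ≤ k
  · rw [Finset.sum_eq_single_of_mem (k - x1) (mem_range.2 (by omega))]
    · have h3 : (((k - x1 : ℕ) : ℤ) = (k : ℤ) - x1) := by rw [Nat.cast_sub hxk]
      simp only [h3, hxk, true_and]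
    · intro y hy hne
      rw [if_neg]
      rintro ⟨h3, -⟩
      omega
  · rw [if_neg (fun h => hxk h.1)]
    refine Finset.sum_eq_zero fun y _ => ?_
    rw [if_neg]
    rintro ⟨h3, -⟩
    omega

/-- `r ≡ 1 (mod q)` -/
theorem eval2_one {p q r k x1 : ℕ} {c m b E : ℤ} (hp : 0 < p) (hpq : p < q) (hr : (r : ℤ) = 1 + c * q)
    (hq1 : IsCoprime (q : ℤ) p) (hE1 : 0 ≤ E) (hE2 : E ≤ p)
    (hx1 : x1 < p) (hx : (p : ℤ) ∣ q * x1 + E + 1)
    (hm : m ≡ q * b + E [ZMOD (p : ℤ) * q]) (h4 : m < r * (q * k + E - p + 2))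
    (h5 : (r : ℤ) * (q * k + E - p + 1) ≤ m + p * q - p) :
    CC p q r (k + 1) m = NX p r k x1 b := by
  rw [← rows (q := (q : ℤ)) (E := E) hp hq1 hx1 hx]
  unfold CC
  refine Finset.sum_congr rfl fun y hy => ?_
  have hy' := mem_range.1 hy
  have hq : 0 < q := by omega
  have hp' : (0 : ℤ) < p := by exact_mod_cast hp
  have hq' : (0 : ℤ) < q := by exact_mod_cast hq
  have hpq' : (p : ℤ) < q := by exact_mod_cast hpq
  have hP : (0 : ℤ) < (p : ℤ) * q := by positivity
  set B : ℤ := (b - r * (y : ℤ)) % (p : ℤ) with hB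
  have hB0 : 0 ≤ B := Int.emod_nonneg _ hp'.ne'
  have hB1 : B ≤ p - 1 := by
    have : B < p := Int.emod_lt_of_pos _ hp'
    omega
  set M : ℤ := q * B + E with hM
  have hM0 : 0 ≤ M := by positivity
  have hM1 : M < p * q := by
    have : (q : ℤ) * B ≤ q * (p - 1) := mul_le_mul_of_nonneg_left hB1 hq'.le
    nlinarith
  -- `x0 = M / p`
  have hx : 0 ≤ M / p := Int.ediv_nonneg hM0 hp'.le
  obtain ⟨x0, hx0⟩ := Int.eq_ofNat_of_zero_le hx
  have hx1 : (x0 : ℤ) < q := by
    rw [← hx0]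
    exact Int.ediv_lt_of_lt_mul hp' (by linarith)
  have hdm := Int.mul_ediv_add_emod M p
  have hmod0 := Int.emod_nonneg M hp'.ne'
  have hmod1 := Int.emod_lt_of_pos M hp'
  rw [hx0] at hdm
  -- the congruence
  have hcong : ∀ x : ℕ, (m - r * (p * x + q * y)) ≡ M - p * x [ZMOD (p : ℤ) * q] := by
    intro x
    have h6 : (p : ℤ) ∣ (b - r * (y : ℤ)) - B := by
      rw [hB]
      exact Int.dvd_self_sub_emod
    obtain ⟨j, hj⟩ := h6
    rw [Int.modEq_iff_dvd] at hm ⊢
    obtain ⟨i, hi⟩ := hm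
    refine ⟨i - j + c * x, ?_⟩
    have e1 : m = q * b + E - p * q * i := by linarith
    have e2 : B = (b - r * (y : ℤ)) - p * j := by linarith
    rw [hM, e1, e2, hr]
    ring
  refine row2 (B := B) (E := E) hp hpq (x0 := x0) (by exact_mod_cast hx1) ?_ ?_ h4 h5
  · intro x hx2
    have h6 : (m - r * (p * x + q * y)) % ((p : ℤ) * q) = (M - p * x) % ((p : ℤ) * q) := hcong x
    rw [h6]
    have hx2' : (x : ℤ) < q := by exact_mod_cast hx2
    have hpx : (p : ℤ) * x ≤ p * (q - 1) := mul_le_mul_of_nonneg_left (by omega) hp'.le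
    have hpx0 : 0 ≤ (p : ℤ) * x := by positivity
    constructor
    · intro h7
      -- M - p x in [0, p)
      have h8 : 0 ≤ M - p * x := by
        by_contra hcon
        push Not at hcon
        have h9 : (M - p * x) % ((p : ℤ) * q) = M - p * x + p * q := by
          have : (M - p * x) % ((p : ℤ) * q) = (M - p * x + p * q) % ((p : ℤ) * q) := by simp
          rw [this]
          refine Int.emod_eq_of_lt ?_ ?_
          · nlinarith
          · linarith
        rw [h9] at h7
        nlinarith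
      have h9 : (M - p * x) % ((p : ℤ) * q) = M - p * x := Int.emod_eq_of_lt h8 (by linarith)
      rw [h9] at h7
      -- so x = x0
      have h10 : (p : ℤ) * (x0 - x) < p := by linarith
      have h11 : -(p : ℤ) < (p : ℤ) * (x0 - x) := by linarith
      have h12 : (x0 : ℤ) - x < 1 := by
        by_contra hcon
        push Not at hcon
        nlinarith
      have h13 : (-1 : ℤ) < (x0 : ℤ) - x := by
        by_contra hcon
        push Not at hcon
        nlinarith
      omega
    · intro h7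
      subst h7
      have h8 : M - p * (x : ℤ) = M % p := by linarith
      rw [h8]
      have h9 : (M % (p : ℤ)) % ((p : ℤ) * q) = M % p :=
        Int.emod_eq_of_lt hmod0 (by nlinarith)
      rw [h9]
      exact hmod1
  · linarith

/-- `r ≡ -1 (mod q)` -/
theorem eval2_neg {p q r k x1 : ℕ} {c m b E : ℤ} (hp : 0 < p) (hpq : p < q) (hr : (r : ℤ) = c * q - 1)
    (hq1 : IsCoprime (q : ℤ) p) (hE1 : 0 ≤ E) (hE2 : E ≤ p)
    (hx1 : x1 < p) (hx : (p : ℤ) ∣ q * x1 + E + 1)
    (hm : m ≡ q * b + (p - 1 - E) [ZMOD (p : ℤ) * q]) (h4 : m < r * (q * k + E - p + 2))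
    (h5 : (r : ℤ) * (q * k + E - p + 1) ≤ m + p * q - p) :
    CC p q r (k + 1) m = NX p (-r) k x1 (-b) := by
  rw [← rows (q := (q : ℤ)) (E := E) hp hq1 hx1 hx]
  unfold CC
  refine Finset.sum_congr rfl fun y hy => ?_
  have hy' := mem_range.1 hy
  have hq : 0 < q := by omega
  have hp' : (0 : ℤ) < p := by exact_mod_cast hp
  have hq' : (0 : ℤ) < q := by exact_mod_cast hq
  have hpq' : (p : ℤ) < q := by exact_mod_cast hpq
  have hP : (0 : ℤ) < (p : ℤ) * q := by positivity
  set B : ℤ := (-b - -(r : ℤ) * (y : ℤ)) % (p : ℤ) with hB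
  have hB0 : 0 ≤ B := Int.emod_nonneg _ hp'.ne'
  have hB1 : B ≤ p - 1 := by
    have : B < p := Int.emod_lt_of_pos _ hp'
    omega
  -- `W = q B - e`, `e = p - 1 - E`
  set W : ℤ := q * B - (p - 1 - E) with hW
  have hqB0 : 0 ≤ (q : ℤ) * B := by positivity
  have hW0 : -((p : ℤ) - 1) ≤ W := by omega
  have hqB : (q : ℤ) * B ≤ q * (p - 1) := mul_le_mul_of_nonneg_left hB1 hq'.le
  have hW1 : W ≤ p * q - p := by nlinarith
  have hx : 0 ≤ (W + (p - 1)) / p := Int.ediv_nonneg (by omega) hp'.le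
  obtain ⟨x0, hx0⟩ := Int.eq_ofNat_of_zero_le hx
  have hdm := Int.mul_ediv_add_emod (W + (p - 1)) p
  have hmod0 := Int.emod_nonneg (W + (p - 1)) hp'.ne'
  have hmod1 := Int.emod_lt_of_pos (W + (p - 1)) hp'
  rw [hx0] at hdm
  have hx1 : (x0 : ℤ) < q := by
    rw [← hx0]
    refine Int.ediv_lt_of_lt_mul hp' ?_
    nlinarith
  have hcong : ∀ x : ℕ, (m - r * (p * x + q * y)) ≡ p * x - W [ZMOD (p : ℤ) * q] := by
    intro x
    have h6 : (p : ℤ) ∣ (-b - -(r : ℤ) * (y : ℤ)) - B := by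
      rw [hB]
      exact Int.dvd_self_sub_emod
    obtain ⟨j, hj⟩ := h6
    rw [Int.modEq_iff_dvd] at hm ⊢
    obtain ⟨i, hi⟩ := hm
    refine ⟨i + j + c * x, ?_⟩
    have e1 : m = q * b + (p - 1 - E) - p * q * i := by linarith
    have e2 : B = (-b - -(r : ℤ) * (y : ℤ)) - p * j := by linarith
    rw [hW, e1, e2, hr]
    ring
  have hWE : W + (p - 1) = q * B + E := by rw [hW]; ring
  refine row2 (B := B) (E := E) hp hpq (x0 := x0) (by exact_mod_cast hx1) ?_ ?_ h4 h5
  · intro x hx2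
    have h6 : (m - r * (p * x + q * y)) % ((p : ℤ) * q) = (p * x - W) % ((p : ℤ) * q) := hcong x
    rw [h6]
    have hx2' : (x : ℤ) < q := by exact_mod_cast hx2
    have hpx : (p : ℤ) * x ≤ p * (q - 1) := mul_le_mul_of_nonneg_left (by omega) hp'.le
    have hpx0 : 0 ≤ (p : ℤ) * x := by positivity
    constructor
    · intro h7
      have h8 : 0 ≤ p * (x : ℤ) - W := by
        by_contra hcon
        push Not at hcon
        have h9 : (p * (x : ℤ) - W) % ((p : ℤ) * q) = p * x - W + p * q := by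
          have : (p * (x : ℤ) - W) % ((p : ℤ) * q) = (p * x - W + p * q) % ((p : ℤ) * q) := by simp
          rw [this]
          refine Int.emod_eq_of_lt ?_ ?_
          · nlinarith
          · linarith
        rw [h9] at h7
        nlinarith
      have h9 : (p * (x : ℤ) - W) % ((p : ℤ) * q) = p * x - W := Int.emod_eq_of_lt h8 (by nlinarith)
      rw [h9] at h7
      have h10 : (p : ℤ) * (x0 - x) < p := by linarith
      have h11 : -(p : ℤ) < (p : ℤ) * (x0 - x) := by linarith
      have h12 : (x0 : ℤ) - x < 1 := by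
        by_contra hcon
        push Not at hcon
        nlinarith
      have h13 : (-1 : ℤ) < (x0 : ℤ) - x := by
        by_contra hcon
        push Not at hcon
        nlinarith
      omega
    · intro h7
      subst h7
      have h9 : (p * (x : ℤ) - W) % ((p : ℤ) * q) = p * x - W :=
        Int.emod_eq_of_lt (by linarith) (by nlinarith)
      rw [h9]
      linarith
  · rw [← hWE]
    linarith

end Pool.Agent.H84.FL
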