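import Pool.Agent.H84.FL.Coef

/-!
MP_fd220b_nt, flat ternary inclusion-exclusion polynomials with `r ≡ ± 1 (mod q)`: a coefficient which is at
least 2 in absolute value.
-/

set_option autoImplicit false

namespace Pool.Agent.H84.FL

open Polynomial

/-- `F` is the inclusion-exclusion polynomial of `p, q, r` -/
def IsIE (p q r : ℕ) (F : ℤ[X]) : Prop :=
  F * ((X ^ (p * q) - 1) * (X ^ (p * r) - 1) * (X ^ (q * r) - 1) * (X - 1)) =
    (X ^ (p * q * r) - 1) * (X ^ p - 1) * (X ^ q - 1) * (X ^ r - 1)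

/-- an integer `n` in a window of length `N` with given residue -/
theorem exists_window {N : ℤ} (hN : 0 < N) (t a : ℤ) :
    ∃ n : ℤ, t - N ≤ n ∧ n < t ∧ n ≡ a [ZMOD N] := by
  refine ⟨t - 1 - (t - 1 - a) % N, ?_, ?_, ?_⟩
  · have := Int.emod_lt_of_pos (t - 1 - a) hN
    omega
  · have := Int.emod_nonneg (t - 1 - a) hN.ne'
    omega
  · have h : (t - 1 - a) % N ≡ t - 1 - a [ZMOD N] := Int.mod_modEq _ _
    have h2 := Int.ModEq.sub_left (t - 1) h
    have e : t - 1 - (t - 1 - a) = a := by ring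
    rwa [e] at h2

/-- `r = 1 + c q`, `r ≥ p + q` -/
theorem case_one {p q r : ℕ} {c : ℤ} (hp : 2 ≤ p) (hpq : p < q) (hpqr : p + q ≤ r)
    (hr : (r : ℤ) = 1 + c * q) (h1 : IsCoprime (q : ℤ) p) (h2 : IsCoprime c p)
    (h3 : IsCoprime (r : ℤ) p) {F : ℤ[X]} (hF : IsIE p q r F) :
    ∃ n : ℕ, 2 ≤ |F.coeff n| := by
  obtain ⟨k, hk1, hk2, b, hb⟩ := core hp (q := q) (c := c) (R := r) hr h1 h2 h3
  have hp' : (0 : ℤ) < p := by exact_mod_cast (by omega : 0 < p)
  have hq' : (0 : ℤ) < q := by exact_mod_cast (by omega : 0 < q)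
  have hN : (0 : ℤ) < (p : ℤ) * q := by positivity
  obtain ⟨m, hm1, hm2, hm3⟩ := exists_window hN ((r : ℤ) * q * k) (q * b + p)
  have hk1' : (1 : ℤ) ≤ k := by exact_mod_cast hk1
  have hk2' : (k : ℤ) ≤ p - 1 := by omega
  have hpq' : (p : ℤ) + 1 ≤ q := by exact_mod_cast hpq
  have hpqr' : (p : ℤ) + q ≤ r := by exact_mod_cast hpqr
  have hr0 : (0 : ℤ) ≤ r := by positivity
  have hqp : (r : ℤ) * 1 ≤ r * (q - p) := mul_le_mul_of_nonneg_left (by omega) hr0
  have hm0 : 0 ≤ m := by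
    have e1 : (p : ℤ) ≤ r * k := by nlinarith
    have e2 : (p : ℤ) * q ≤ r * k * q := mul_le_mul_of_nonneg_right e1 hq'.le
    nlinarith
  obtain ⟨n, rfl⟩ := Int.eq_ofNat_of_zero_le hm0
  refine ⟨n, ?_⟩
  have hn : n < p * q * r := by
    have e1 : (n : ℤ) < p * q * r := by
      have e2 : (r : ℤ) * q * k ≤ r * q * (p - 1) := mul_le_mul_of_nonneg_left hk2' (by positivity)
      have e3 : (0 : ℤ) ≤ r * q := by positivity
      nlinarith
    exact_mod_cast e1
  rw [coeff_F (by omega) (by omega) (by omega) hF hn]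
  have hkp : k ≤ p := hk2.le
  rw [Cz_eq (by omega) (by omega) (by omega) hkp hm2,
    Cz_eq (by omega) (by omega) (by omega) hkp (m := (n : ℤ) - q) (by linarith),
    Cz_eq (by omega) (by omega) (by omega) hkp (m := (n : ℤ) - r) (by linarith),
    Cz_eq (by omega) (by omega) (by omega) hkp (m := (n : ℤ) - q - r) (by linarith)]
  have v1 : CC p q r k (n : ℤ) = NN p r k b :=
    eval_one (c := c) (E := p) (by omega) hpq hr (by omega) le_rfl hkp hm3 hm2 (by nlinarith)
  have v2 : CC p q r k ((n : ℤ) - q) = NN p r k (b - 1) := by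
    refine eval_one (c := c) (E := p) (by omega) hpq hr (by omega) le_rfl hkp ?_ (by linarith)
      (by nlinarith)
    have e1 : (q : ℤ) * (b - 1) + p = (q * b + p) - q := by ring
    rw [e1]
    exact hm3.sub_right _
  have v3 : CC p q r k ((n : ℤ) - r) = NN p r k (b - c) := by
    refine eval_one (c := c) (E := p - 1) (by omega) hpq hr (by omega) (by omega) hkp ?_
      (by linarith) (by nlinarith)
    have e1 : (q : ℤ) * (b - c) + (p - 1) = (q * b + p) - r := by rw [hr]; ring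
    rw [e1]
    exact hm3.sub_right _
  have v4 : CC p q r k ((n : ℤ) - q - r) = NN p r k (b - c - 1) := by
    refine eval_one (c := c) (E := p - 1) (by omega) hpq hr (by omega) (by omega) hkp ?_
      (by linarith) (by nlinarith)
    have e1 : (q : ℤ) * (b - c - 1) + (p - 1) = (q * b + p) - q - r := by rw [hr]; ring
    rw [e1]
    exact (hm3.sub_right _).sub_right _
  rw [v1, v2, v3, v4]
  exact hb

/-- `r = c q - 1` -/
theorem case_neg {p q r : ℕ} {c : ℤ} (hp : 2 ≤ p) (hpq : p < q) (hpqr : p + q ≤ r)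
    (hr : (r : ℤ) = c * q - 1) (h1 : IsCoprime (q : ℤ) p) (h2 : IsCoprime c p)
    (h3 : IsCoprime (r : ℤ) p) {F : ℤ[X]} (hF : IsIE p q r F) :
    ∃ n : ℕ, 2 ≤ |F.coeff n| := by
  obtain ⟨k, hk1, hk2, b, hb⟩ := core hp (q := q) (c := -c) (R := -r) (by rw [hr]; ring) h1
    h2.neg_left h3.neg_left
  have hp' : (0 : ℤ) < p := by exact_mod_cast (by omega : 0 < p)
  have hq' : (0 : ℤ) < q := by exact_mod_cast (by omega : 0 < q)
  have hN : (0 : ℤ) < (p : ℤ) * q := by positivity
  -- `n = q (1 - b) - 1`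
  obtain ⟨m, hm1, hm2, hm3⟩ := exists_window hN ((r : ℤ) * q * k) (q * (1 - b) + -1)
  have hk1' : (1 : ℤ) ≤ k := by exact_mod_cast hk1
  have hk2' : (k : ℤ) ≤ p - 1 := by omega
  have hpq' : (p : ℤ) + 1 ≤ q := by exact_mod_cast hpq
  have hpqr' : (p : ℤ) + q ≤ r := by exact_mod_cast hpqr
  have hr0 : (0 : ℤ) ≤ r := by positivity
  have hqp : (r : ℤ) * 1 ≤ r * (q - p) := mul_le_mul_of_nonneg_left (by omega) hr0
  have hm0 : 0 ≤ m := by
    have e1 : (p : ℤ) ≤ r * k := by nlinarith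
    have e2 : (p : ℤ) * q ≤ r * k * q := mul_le_mul_of_nonneg_right e1 hq'.le
    nlinarith
  obtain ⟨n, rfl⟩ := Int.eq_ofNat_of_zero_le hm0
  refine ⟨n, ?_⟩
  have hn : n < p * q * r := by
    have e1 : (n : ℤ) < p * q * r := by
      have e2 : (r : ℤ) * q * k ≤ r * q * (p - 1) := mul_le_mul_of_nonneg_left hk2' (by positivity)
      have e3 : (0 : ℤ) ≤ r * q := by positivity
      nlinarith
    exact_mod_cast e1
  rw [coeff_F (by omega) (by omega) (by omega) hF hn]
  have hkp : k ≤ p := hk2.le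
  rw [Cz_eq (by omega) (by omega) (by omega) hkp hm2,
    Cz_eq (by omega) (by omega) (by omega) hkp (m := (n : ℤ) - q) (by linarith),
    Cz_eq (by omega) (by omega) (by omega) hkp (m := (n : ℤ) - r) (by linarith),
    Cz_eq (by omega) (by omega) (by omega) hkp (m := (n : ℤ) - q - r) (by linarith)]
  have v1 : CC p q r k (n : ℤ) = NN p (-r) k (b - 1) := by
    have := eval_neg (p := p) (q := q) (r := r) (k := k) (c := c) (E := p) (b := 1 - b) (by omega)
      hpq hr (by omega) le_rfl hkp (m := n) (by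
        have e1 : (q : ℤ) * (1 - b) + (p - 1 - p) = q * (1 - b) + -1 := by ring
        rw [e1]
        exact hm3) hm2 (by nlinarith)
    rw [this]
    congr 1
    ring
  have v2 : CC p q r k ((n : ℤ) - q) = NN p (-r) k b := by
    have := eval_neg (p := p) (q := q) (r := r) (k := k) (c := c) (E := p) (b := -b) (by omega)
      hpq hr (by omega) le_rfl hkp (m := (n : ℤ) - q) (by
        have e1 : (q : ℤ) * (-b) + (p - 1 - p) = (q * (1 - b) + -1) - q := by ring
        rw [e1]
        exact hm3.sub_right _) (by linarith) (by nlinarith)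
    rw [this]
    congr 1
    ring
  have v3 : CC p q r k ((n : ℤ) - r) = NN p (-r) k (b - -c - 1) := by
    have := eval_neg (p := p) (q := q) (r := r) (k := k) (c := c) (E := p - 1) (b := 1 - b - c)
      (by omega) hpq hr (by omega) (by omega) hkp (m := (n : ℤ) - r) (by
        have e1 : (q : ℤ) * (1 - b - c) + (p - 1 - (p - 1)) = (q * (1 - b) + -1) - r := by
          rw [hr]; ring
        rw [e1]
        exact hm3.sub_right _) (by linarith) (by nlinarith)
    rw [this]
    congr 1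
    ring
  have v4 : CC p q r k ((n : ℤ) - q - r) = NN p (-r) k (b - -c) := by
    have := eval_neg (p := p) (q := q) (r := r) (k := k) (c := c) (E := p - 1) (b := -b - c)
      (by omega) hpq hr (by omega) (by omega) hkp (m := (n : ℤ) - q - r) (by
        have e1 : (q : ℤ) * (-b - c) + (p - 1 - (p - 1)) = (q * (1 - b) + -1) - q - r := by
          rw [hr]; ring
        rw [e1]
        exact (hm3.sub_right _).sub_right _) (by linarith) (by nlinarith)
    rw [this]
    congr 1
    ring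
  rw [v1, v2, v3, v4]
  have e : NN p (-r) k (b - 1) - NN p (-r) k b - NN p (-r) k (b - -c - 1) + NN p (-r) k (b - -c) =
      -(NN p (-r) k b - NN p (-r) k (b - 1) - NN p (-r) k (b - -c) + NN p (-r) k (b - -c - 1)) := by
    ring
  rw [e, abs_neg]
  exact hb

/-- `r = q + 1`: the coefficient of `X ^ (q + 1)` is `-2` -/
theorem case_succ {p q : ℕ} (hp : 2 ≤ p) (hpq : p < q) {F : ℤ[X]} (hF : IsIE p q (q + 1) F) :
    F.coeff (q + 1) = -2 := by
  have hpq2 : q + 1 < p * q := by nlinarith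
  have hn : q + 1 < p * q * (q + 1) :=
    lt_of_lt_of_le hpq2 (Nat.le_mul_of_pos_right _ (Nat.succ_pos q))
  rw [coeff_F (by omega) (by omega) (by omega) hF hn]
  have e1 : (((q + 1 : ℕ) : ℤ) - q) = ((1 : ℕ) : ℤ) := by push_cast; ring
  have e2 : (((q + 1 : ℕ) : ℤ) - ((q + 1 : ℕ) : ℤ)) = ((0 : ℕ) : ℤ) := by simp
  rw [e1, e2]
  have h3 : Cz p q (q + 1) (((1 : ℕ) : ℤ) - ((q + 1 : ℕ) : ℤ)) = 0 := by
    rw [Cz, if_neg (by push_cast; omega)]
  have hs : ∀ n : ℕ, n < p * (q + 1) → n < q * (q + 1) → Cz p q (q + 1) (n : ℤ) = d0 p q n := by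
    intro n h1 h2
    rw [Cz, if_pos (by positivity), Int.toNat_natCast]
    unfold geo
    rw [Nat.div_eq_of_lt h2, zero_add, Finset.sum_range_one, Nat.mul_zero, Nat.sub_zero,
      Nat.div_eq_of_lt h1, zero_add, Finset.sum_range_one, Nat.mul_zero, Nat.sub_zero]
  rw [h3, hs (q + 1) (by nlinarith) (by nlinarith), hs 1 (by nlinarith) (by nlinarith),
    hs 0 (Nat.mul_pos (by omega) (Nat.succ_pos q)) (Nat.mul_pos (by omega) (Nat.succ_pos q))]
  unfold d0
  rw [Nat.mod_eq_of_lt hpq2, if_neg (by omega), Nat.mod_eq_of_lt (by omega), if_pos (by omega),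
    Nat.zero_mod, if_pos (by omega)]
  norm_num

end Pool.Agent.H84.FL
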