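import Pool.Agent.H84.FL.Main
import Pool.Agent.H84.FL.Eval2

/-!
MP_fd220b_nt, flat ternary inclusion-exclusion polynomials with `r ≡ ± 1 (mod q)`: a coefficient which is at
least 2 in absolute value, when `r ∓ 1` and `p` have a common divisor `d ≥ 2`.
-/

set_option autoImplicit false

namespace Pool.Agent.H84.FL

open Polynomial

/-- the second difference of `Cz` is a coefficient -/
theorem coeff_ge {p q r : ℕ} (hp : 0 < p) (hq : 1 < q) (hr : 0 < r) {F : ℤ[X]} (hF : IsIE p q r F)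
    {m : ℤ} (hm : m < p * q * r)
    (h : 2 ≤ |Cz p q r m - Cz p q r (m - q) - Cz p q r (m - r) + Cz p q r (m - q - r)|) :
    ∃ n : ℕ, 2 ≤ |F.coeff n| := by
  have hq0 : (0 : ℤ) ≤ q := by positivity
  have hr0 : (0 : ℤ) ≤ r := by positivity
  have hneg : ∀ m : ℤ, m < 0 → Cz p q r m = 0 := by
    intro m hm
    rw [Cz, if_neg (by omega)]
  by_cases hm0 : 0 ≤ m
  · obtain ⟨n, rfl⟩ := Int.eq_ofNat_of_zero_le hm0
    refine ⟨n, ?_⟩
    have hn : n < p * q * r := by exact_mod_cast hm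
    rw [coeff_F hp hq hr hF hn]
    exact h
  · exfalso
    rw [hneg m (by omega), hneg (m - q) (by omega), hneg (m - r) (by omega),
      hneg (m - q - r) (by omega)] at h
    norm_num at h

/-- the offset -/
theorem offset {p : ℕ} (hp : 0 < p) (u : ℤ) : ∃ E : ℤ, 1 ≤ E ∧ E ≤ p ∧ (p : ℤ) ∣ u + E + 1 := by
  have hp' : (0 : ℤ) < p := by exact_mod_cast hp
  have h0 := Int.emod_nonneg (u + 1) hp'.ne'
  have h1 := Int.emod_lt_of_pos (u + 1) hp'
  refine ⟨p - (u + 1) % p, by omega, by omega, ?_⟩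
  have e : u + ((p : ℤ) - (u + 1) % p) + 1 = ((u + 1) - (u + 1) % p) + p := by ring
  rw [e]
  exact dvd_add Int.dvd_self_sub_emod (dvd_refl _)

/-- `r = 1 + c q`, `r ≥ p + q` -/
theorem case_one2 {p q r : ℕ} {c d : ℤ} (hp : 2 ≤ p) (hpq : p < q) (hpqr : p + q ≤ r)
    (hr : (r : ℤ) = 1 + c * q) (h1 : IsCoprime (q : ℤ) p) (h2 : ¬ (p : ℤ) ∣ c)
    (hd : 2 ≤ d) (hdp : d ∣ (p : ℤ)) (hdc : d ∣ c)
    (h3 : IsCoprime (r : ℤ) p) {F : ℤ[X]} (hF : IsIE p q r F) :
    ∃ n : ℕ, 2 ≤ |F.coeff n| := by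
  obtain ⟨k, hk1, hk2, x1, x2, hx1, hx2, hx, b, hb⟩ :=
    core2 hp (q := q) (c := c) (R := r) hr h1 h3 h2 hd hdp hdc
  have hp' : (0 : ℤ) < p := by exact_mod_cast (by omega : 0 < p)
  have hq' : (0 : ℤ) < q := by exact_mod_cast (by omega : 0 < q)
  have hN : (0 : ℤ) < (p : ℤ) * q := by positivity
  obtain ⟨E, hE1, hE2, hE3⟩ := offset (p := p) (by omega) ((q : ℤ) * x1)
  have hE4 : (p : ℤ) ∣ q * x2 + (E - 1) + 1 := by
    rw [Int.modEq_iff_dvd] at hx
    have e : (q : ℤ) * x2 + (E - 1) + 1 = (q * x1 + E + 1) - (q * x1 + 1 - q * x2) := by ring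
    rw [e]
    exact dvd_sub hE3 hx
  obtain ⟨m, hm1, hm2, hm3⟩ := exists_window hN ((r : ℤ) * (q * k + E - p + 2)) (q * b + E)
  have hk1' : (1 : ℤ) ≤ k := by exact_mod_cast hk1
  have hk2' : (k : ℤ) ≤ p - 2 := by omega
  have hpq' : (p : ℤ) + 1 ≤ q := by exact_mod_cast hpq
  have hpqr' : (p : ℤ) + q ≤ r := by exact_mod_cast hpqr
  have hr0 : (0 : ℤ) ≤ r := by positivity
  have hq2 : (2 : ℤ) ≤ q := by exact_mod_cast (by omega : 2 ≤ q)
  have up : m < (r : ℤ) * q * ((k + 1 : ℕ) : ℤ) := by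
    have e1 : (r : ℤ) * (q * k + E - p + 2) ≤ r * (q * k + q) :=
      mul_le_mul_of_nonneg_left (by linarith) hr0
    have e2 : (r : ℤ) * q * ((k + 1 : ℕ) : ℤ) = r * (q * k + q) := by push_cast; ring
    rw [e2]
    linarith
  have e0 : (r : ℤ) * (q * k + E - p + 2) = r * (q * k + E - p + 1) + r := by ring
  have e0' : (r : ℤ) * (q * k + (E - 1) - p + 2) = r * (q * k + E - p + 2) - r := by ring
  have e0'' : (r : ℤ) * (q * k + (E - 1) - p + 1) = r * (q * k + E - p + 2) - r - r := by ring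
  refine coeff_ge (by omega) (by omega) (by omega) hF (m := m) ?_ ?_
  · have e1 : (r : ℤ) * q * ((k + 1 : ℕ) : ℤ) ≤ r * q * p :=
      mul_le_mul_of_nonneg_left (by push_cast; linarith) (by positivity)
    have e2 : (r : ℤ) * q * p = p * q * r := by ring
    linarith
  have hkp : k + 1 ≤ p := by omega
  rw [Cz_eq (by omega) (by omega) (by omega) hkp up,
    Cz_eq (by omega) (by omega) (by omega) hkp (m := m - q) (by linarith),
    Cz_eq (by omega) (by omega) (by omega) hkp (m := m - r) (by linarith),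
    Cz_eq (by omega) (by omega) (by omega) hkp (m := m - q - r) (by linarith)]
  have v1 : CC p q r (k + 1) m = NX p r k x1 b :=
    eval2_one (c := c) (E := E) (by omega) hpq hr h1 (by omega) hE2 hx1 hE3 hm3 hm2
      (by linarith)
  have v2 : CC p q r (k + 1) (m - q) = NX p r k x1 (b - 1) := by
    refine eval2_one (c := c) (E := E) (by omega) hpq hr h1 (by omega) hE2 hx1 hE3 ?_
      (by linarith) (by linarith)
    have e1 : (q : ℤ) * (b - 1) + E = (q * b + E) - q := by ring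
    rw [e1]
    exact hm3.sub_right _
  have v3 : CC p q r (k + 1) (m - r) = NX p r k x2 (b - c) := by
    refine eval2_one (c := c) (E := E - 1) (by omega) hpq hr h1 (by omega) (by omega)
      hx2 hE4 ?_ (by linarith) (by linarith)
    have e1 : (q : ℤ) * (b - c) + (E - 1) = (q * b + E) - r := by rw [hr]; ring
    rw [e1]
    exact hm3.sub_right _
  have v4 : CC p q r (k + 1) (m - q - r) = NX p r k x2 (b - c - 1) := by
    refine eval2_one (c := c) (E := E - 1) (by omega) hpq hr h1 (by omega) (by omega)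
      hx2 hE4 ?_ (by linarith) (by linarith)
    have e1 : (q : ℤ) * (b - c - 1) + (E - 1) = (q * b + E) - q - r := by rw [hr]; ring
    rw [e1]
    exact (hm3.sub_right _).sub_right _
  rw [v1, v2, v3, v4]
  exact hb

/-- `r = c q - 1` -/
theorem case_neg2 {p q r : ℕ} {c d : ℤ} (hp : 2 ≤ p) (hpq : p < q) (hpqr : p + q ≤ r)
    (hr : (r : ℤ) = c * q - 1) (h1 : IsCoprime (q : ℤ) p) (h2 : ¬ (p : ℤ) ∣ c)
    (hd : 2 ≤ d) (hdp : d ∣ (p : ℤ)) (hdc : d ∣ c)
    (h3 : IsCoprime (r : ℤ) p) {F : ℤ[X]} (hF : IsIE p q r F) :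
    ∃ n : ℕ, 2 ≤ |F.coeff n| := by
  obtain ⟨k, hk1, hk2, x1, x2, hx1, hx2, hx, b, hb⟩ :=
    core2 hp (q := q) (c := -c) (R := -r) (by rw [hr]; ring) h1 h3.neg_left
      (fun h => h2 ((dvd_neg).1 h)) hd hdp ((dvd_neg).2 hdc)
  have hp' : (0 : ℤ) < p := by exact_mod_cast (by omega : 0 < p)
  have hq' : (0 : ℤ) < q := by exact_mod_cast (by omega : 0 < q)
  have hN : (0 : ℤ) < (p : ℤ) * q := by positivity
  obtain ⟨E, hE1, hE2, hE3⟩ := offset (p := p) (by omega) ((q : ℤ) * x1)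
  have hE4 : (p : ℤ) ∣ q * x2 + (E - 1) + 1 := by
    rw [Int.modEq_iff_dvd] at hx
    have e : (q : ℤ) * x2 + (E - 1) + 1 = (q * x1 + E + 1) - (q * x1 + 1 - q * x2) := by ring
    rw [e]
    exact dvd_sub hE3 hx
  obtain ⟨m, hm1, hm2, hm3⟩ := exists_window hN ((r : ℤ) * (q * k + E - p + 2))
    (q * (1 - b) + (p - 1 - E))
  have hk1' : (1 : ℤ) ≤ k := by exact_mod_cast hk1
  have hk2' : (k : ℤ) ≤ p - 2 := by omega
  have hpq' : (p : ℤ) + 1 ≤ q := by exact_mod_cast hpq
  have hpqr' : (p : ℤ) + q ≤ r := by exact_mod_cast hpqr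
  have hr0 : (0 : ℤ) ≤ r := by positivity
  have hq2 : (2 : ℤ) ≤ q := by exact_mod_cast (by omega : 2 ≤ q)
  have up : m < (r : ℤ) * q * ((k + 1 : ℕ) : ℤ) := by
    have e1 : (r : ℤ) * (q * k + E - p + 2) ≤ r * (q * k + q) :=
      mul_le_mul_of_nonneg_left (by linarith) hr0
    have e2 : (r : ℤ) * q * ((k + 1 : ℕ) : ℤ) = r * (q * k + q) := by push_cast; ring
    rw [e2]
    linarith
  have e0 : (r : ℤ) * (q * k + E - p + 2) = r * (q * k + E - p + 1) + r := by ring
  have e0' : (r : ℤ) * (q * k + (E - 1) - p + 2) = r * (q * k + E - p + 2) - r := by ring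
  have e0'' : (r : ℤ) * (q * k + (E - 1) - p + 1) = r * (q * k + E - p + 2) - r - r := by ring
  refine coeff_ge (by omega) (by omega) (by omega) hF (m := m) ?_ ?_
  · have e1 : (r : ℤ) * q * ((k + 1 : ℕ) : ℤ) ≤ r * q * p :=
      mul_le_mul_of_nonneg_left (by push_cast; linarith) (by positivity)
    have e2 : (r : ℤ) * q * p = p * q * r := by ring
    linarith
  have hkp : k + 1 ≤ p := by omega
  rw [Cz_eq (by omega) (by omega) (by omega) hkp up,
    Cz_eq (by omega) (by omega) (by omega) hkp (m := m - q) (by linarith),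
    Cz_eq (by omega) (by omega) (by omega) hkp (m := m - r) (by linarith),
    Cz_eq (by omega) (by omega) (by omega) hkp (m := m - q - r) (by linarith)]
  have v1 : CC p q r (k + 1) m = NX p (-r) k x1 (b - 1) := by
    have := eval2_neg (p := p) (q := q) (r := r) (k := k) (c := c) (E := E) (b := 1 - b) (by omega)
      hpq hr h1 (by omega) hE2 hx1 hE3 (m := m) hm3 hm2 (by linarith)
    rw [this]
    congr 1
    ring
  have v2 : CC p q r (k + 1) (m - q) = NX p (-r) k x1 b := by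
    have := eval2_neg (p := p) (q := q) (r := r) (k := k) (c := c) (E := E) (b := -b) (by omega)
      hpq hr h1 (by omega) hE2 hx1 hE3 (m := m - q) (by
        have e1 : (q : ℤ) * (-b) + (p - 1 - E) = (q * (1 - b) + (p - 1 - E)) - q := by ring
        rw [e1]
        exact hm3.sub_right _) (by linarith) (by linarith)
    rw [this]
    congr 1
    ring
  have v3 : CC p q r (k + 1) (m - r) = NX p (-r) k x2 (b - -c - 1) := by
    have := eval2_neg (p := p) (q := q) (r := r) (k := k) (c := c) (E := E - 1) (b := 1 - b - c)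
      (by omega) hpq hr h1 (by omega) (by omega) hx2 hE4 (m := m - r) (by
        have e1 : (q : ℤ) * (1 - b - c) + (p - 1 - (E - 1)) = (q * (1 - b) + (p - 1 - E)) - r := by
          rw [hr]; ring
        rw [e1]
        exact hm3.sub_right _) (by linarith) (by linarith)
    rw [this]
    congr 1
    ring
  have v4 : CC p q r (k + 1) (m - q - r) = NX p (-r) k x2 (b - -c) := by
    have := eval2_neg (p := p) (q := q) (r := r) (k := k) (c := c) (E := E - 1) (b := -b - c)
      (by omega) hpq hr h1 (by omega) (by omega) hx2 hE4 (m := m - q - r) (by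
        have e1 : (q : ℤ) * (-b - c) + (p - 1 - (E - 1)) = (q * (1 - b) + (p - 1 - E)) - q - r := by
          rw [hr]; ring
        rw [e1]
        exact (hm3.sub_right _).sub_right _) (by linarith) (by linarith)
    rw [this]
    congr 1
    ring
  rw [v1, v2, v3, v4]
  have e : NX p (-r) k x1 (b - 1) - NX p (-r) k x1 b - NX p (-r) k x2 (b - -c - 1) +
      NX p (-r) k x2 (b - -c) =
      -(NX p (-r) k x1 b - NX p (-r) k x1 (b - 1) - NX p (-r) k x2 (b - -c) +
        NX p (-r) k x2 (b - -c - 1)) := by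
    ring
  rw [e, abs_neg]
  exact hb

end Pool.Agent.H84.FL
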